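import Pool.Agent.Q151.Phy.Def

/-! # Caterpillars and the partitions they induce -/

namespace Pool.Agent.Q151.Phy

/-- vertices of the caterpillar: `(i, false)` is the `i`-th vertex of the spine
(`0` and `n-1` are leaves), `(i, true)` is the leaf hanging at the `i`-th vertex. -/
abbrev catV (n : ℕ) : Type := {v : ℕ × Bool // v.1 < n ∧ (v.2 = true → 0 < v.1 ∧ v.1 + 1 < n)}

def adj0 (a b : ℕ × Bool) : Prop :=
  (a.2 = false ∧ b.2 = false ∧ a.1 + 1 = b.1) ∨ (a.2 = false ∧ b.2 = true ∧ a.1 = b.1)

def catG (n : ℕ) : SimpleGraph (catV n) where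
  Adj v w := adj0 v.1 w.1 ∨ adj0 w.1 v.1
  symm := ⟨fun v w h => h.symm⟩
  loopless := ⟨fun v h => by
    rcases h with h | h <;> rcases h with h | h <;> simp_all⟩

instance (n : ℕ) : Finite (catV n) := by
  have : Finite {v : ℕ × Bool // v.1 < n} := by
    have h : Set.Finite {v : ℕ × Bool | v.1 < n} := by
      apply Set.Finite.subset ((Set.finite_lt_nat n).prod (Set.toFinite (Set.univ : Set Bool)))
      intro v hv
      simp only [Set.mem_prod, Set.mem_ofPred_eq, Set.mem_univ, and_true]
      exact hv
    exact h
  exact Finite.of_injective (fun v : catV n => (⟨v.1, v.2.1⟩ : {v : ℕ × Bool // v.1 < n}))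
    (by intro a b h; simpa [Subtype.ext_iff] using h)

variable {n : ℕ}

def U (i : ℕ) (h : i < n) : catV n := ⟨(i, false), h, by simp⟩

def W (i : ℕ) (h : 0 < i ∧ i + 1 < n) : catV n := ⟨(i, true), by omega, fun _ => h⟩

def att (D : ℕ → Prop) (v : ℕ × Bool) : Prop := v.2 = true → D v.1

def Q (D E : ℕ → Prop) (v w : ℕ × Bool) : Prop :=
  v = w ∨ (att D v ∧ att D w ∧ ∀ l, min v.1 w.1 ≤ l → l < max v.1 w.1 → E l)

theorem Q_of_reachable (H : SimpleGraph (catV n)) (hH : H ≤ catG n) (D E : ℕ → Prop)
    (hE : ∀ v w, H.Adj v w → v.1.2 = false → w.1.2 = false → v.1.1 + 1 = w.1.1 → E v.1.1)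
    (hD : ∀ v w, H.Adj v w → v.1.2 = false → w.1.2 = true → D w.1.1)
    (v w : catV n) (h : H.Reachable v w) : Q D E v.1 w.1 := by
  obtain ⟨p⟩ := h
  induction p with
  | nil => left; rfl
  | @cons a b c hab p ih =>
    have hadj := hH hab
    -- Q a b step
    obtain ⟨⟨i, bi⟩, hi⟩ := a
    obtain ⟨⟨j, bj⟩, hj⟩ := b
    obtain ⟨⟨k, bk⟩, hk⟩ := c
    simp only [catG, adj0] at hadj
    have h1 := hE _ _ hab
    have h2 := hD _ _ hab
    have h3 := hE _ _ hab.symm
    have h4 := hD _ _ hab.symm
    simp only [Q, att, Prod.mk.injEq] at ih h1 h2 h3 h4 ⊢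
    right
    have key : (bi = true → D i) ∧ (bk = true → D k) ∧
        (∀ l, min i j ≤ l → l < max i j → E l) ∧ (∀ l, min j k ≤ l → l < max j k → E l) := by
      refine ⟨?_, ?_, ?_, ?_⟩
      · intro hb
        rcases hadj with hadj | hadj
        · simp [hb] at hadj
        · rcases hadj with hadj | hadj
          · simp [hb] at hadj
          · exact h4 hadj.1 hb
      · intro hb
        rcases ih with ih | ih
        · obtain ⟨rfl, rfl⟩ := ih
          rcases hadj with hadj | hadj
          · rcases hadj with hadj | hadj
            · simp [hb] at hadj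
            · exact h2 hadj.1 hb
          · simp [hb] at hadj
        · exact ih.2.1 hb
      · intro l hl1 hl2
        rcases hadj with hadj | hadj
        · rcases hadj with hadj | hadj
          · have : l = i := by omega
            subst this
            exact h1 hadj.1 hadj.2.1 hadj.2.2
          · omega
        · rcases hadj with hadj | hadj
          · have : l = j := by omega
            subst this
            exact h3 hadj.1 hadj.2.1 hadj.2.2
          · omega
      · intro l hl1 hl2
        rcases ih with ih | ih
        · omega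
        · exact ih.2.2 l hl1 hl2
    refine ⟨key.1, key.2.1, ?_⟩
    intro l hl1 hl2
    by_cases h5 : min i j ≤ l ∧ l < max i j
    · exact key.2.2.1 l h5.1 h5.2
    · exact key.2.2.2 l (by omega) (by omega)

theorem reach_spine (H : SimpleGraph (catV n)) (E : ℕ → Prop)
    (hE : ∀ l (h : l + 1 < n), E l → H.Adj (U l (by omega)) (U (l + 1) h))
    (i : ℕ) (d : ℕ) (h : i + d < n) (hl : ∀ l, i ≤ l → l < i + d → E l) :
    H.Reachable (U i (by omega)) (U (i + d) h) := by
  induction d with
  | zero => exact SimpleGraph.Reachable.refl _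
  | succ d ih =>
    have h1 := ih (by omega) (fun l h1 h2 => hl l h1 (by omega))
    exact h1.trans (hE (i + d) (by omega) (hl _ (by omega) (by omega))).reachable

theorem reach_spine' (H : SimpleGraph (catV n)) (E : ℕ → Prop)
    (hE : ∀ l (h : l + 1 < n), E l → H.Adj (U l (by omega)) (U (l + 1) h))
    (i j : ℕ) (hi : i < n) (hj : j < n) (hl : ∀ l, min i j ≤ l → l < max i j → E l) :
    H.Reachable (U i hi) (U j hj) := by
  rcases Nat.le_total i j with hij | hij
  · obtain ⟨d, rfl⟩ := Nat.exists_eq_add_of_le hij
    exact reach_spine H E hE i d hj (fun l h1 h2 => hl l (by omega) (by omega))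
  · obtain ⟨d, rfl⟩ := Nat.exists_eq_add_of_le hij
    exact (reach_spine H E hE j d hi (fun l h1 h2 => hl l (by omega) (by omega))).symm

theorem reachable_of_Q (H : SimpleGraph (catV n)) (D E : ℕ → Prop)
    (hE : ∀ l (h : l + 1 < n), E l → H.Adj (U l (by omega)) (U (l + 1) h))
    (hD : ∀ i (h : 0 < i ∧ i + 1 < n), D i → H.Adj (U i (by omega)) (W i h))
    (v w : catV n) (h : Q D E v.1 w.1) : H.Reachable v w := by
  rcases h with h | ⟨h1, h2, h3⟩
  · have : v = w := Subtype.ext h
    rw [this]
  · have base : ∀ v : catV n, att D v.1 → H.Reachable v (U v.1.1 v.2.1) := by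
      intro v hv
      obtain ⟨⟨i, b⟩, hi⟩ := v
      cases b with
      | false => exact SimpleGraph.Reachable.refl _
      | true => exact (hD i (hi.2 rfl) (hv rfl)).symm.reachable
    exact ((base v h1).trans (reach_spine' H E hE _ _ v.2.1 w.2.1 h3)).trans (base w h2).symm

theorem cat_connected (h : 2 ≤ n) : (catG n).Connected := by
  have : Nonempty (catV n) := ⟨U 0 (by omega)⟩
  refine SimpleGraph.Connected.mk (fun v w => ?_)
  apply reachable_of_Q (catG n) (fun _ => True) (fun _ => True)
  · intro l h _
    left; left; simp [U]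
  · intro i h _
    left; right; simp [U, W]
  · right
    simp [att]

theorem cat_acyclic : (catG n).IsAcyclic := by
  rw [SimpleGraph.isAcyclic_iff_forall_adj_isBridge]
  intro v w hvw
  -- reduce to one orientation
  have key : ∀ v w : catV n, adj0 v.1 w.1 → (catG n).IsBridge s(v, w) := by
    intro v w hvw
    rw [SimpleGraph.isBridge_iff]
    intro hr
    rcases hvw with h | h
    · have := Q_of_reachable ((catG n).deleteEdges {s(v, w)}) (SimpleGraph.deleteEdges_le _)
        (fun _ => True) (fun l => l ≠ v.1.1) (by
          intro a b hab ha hb hl he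
          rw [SimpleGraph.deleteEdges_adj] at hab
          apply hab.2
          have e1 : a = v := Subtype.ext (Prod.ext he (by rw [ha, h.1]))
          have e2 : b = w := Subtype.ext (Prod.ext (by omega) (by rw [hb, h.2.1]))
          rw [e1, e2]; rfl) (by simp) v w hr
      rcases this with h' | ⟨_, _, h'⟩
      · rw [h'] at h; omega
      · exact h' v.1.1 (by omega) (by omega) rfl
    · have := Q_of_reachable ((catG n).deleteEdges {s(v, w)}) (SimpleGraph.deleteEdges_le _)
        (fun i => i ≠ v.1.1) (fun l => True) (by simp) (by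
          intro a b hab ha hb he
          rw [SimpleGraph.deleteEdges_adj] at hab
          apply hab.2
          have hc := hab.1
          have e0 : a.1.1 = b.1.1 := by
            rcases hc with hc | hc
            · rcases hc with hc | hc
              · rw [hb] at hc; simp at hc
              · exact hc.2.2
            · rcases hc with hc | hc
              · rw [hb] at hc; simp at hc
              · rw [hb] at hc; simp at hc
          have e1 : a = v := Subtype.ext (Prod.ext (by omega) (by rw [ha, h.1]))
          have e2 : b = w := Subtype.ext (Prod.ext (by omega) (by rw [hb, h.2.1]))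
          rw [e1, e2]; rfl) v w hr
      rcases this with h' | ⟨_, h', _⟩
      · rw [h'] at h; simp at h
      · exact h' h.2.1 h.2.2.symm
  rcases hvw with h | h
  · exact key v w h
  · rw [Sym2.eq_swap]; exact key w v h

theorem cat_tree (h : 2 ≤ n) : (catG n).IsTree := ⟨cat_connected h, cat_acyclic⟩

def isLeaf (v : catV n) : Prop := v.1.2 = true ∨ v.1.1 = 0 ∨ v.1.1 + 1 = n

theorem deg_leaf (h : 2 ≤ n) (v : catV n) (hv : isLeaf v) :
    ((catG n).neighborSet v).ncard = 1 := by
  rw [Set.ncard_eq_one]
  obtain ⟨⟨i, b⟩, hi⟩ := v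
  simp only [isLeaf] at hv
  cases b with
  | true =>
    refine ⟨U i hi.1, ?_⟩
    ext ⟨⟨j, c⟩, hj⟩
    simp only [SimpleGraph.mem_neighborSet, catG, adj0, U, Set.mem_singleton_iff, Subtype.mk.injEq,
      Prod.mk.injEq]
    cases c <;> simp
  | false =>
    by_cases h0 : i = 0
    · subst h0
      refine ⟨U 1 (by omega), ?_⟩
      ext ⟨⟨j, c⟩, hj⟩
      simp only [SimpleGraph.mem_neighborSet, catG, adj0, U, Set.mem_singleton_iff,
        Subtype.mk.injEq, Prod.mk.injEq]
      cases c
      · simp; omega
      · have := hj.2 rfl
        simp only at this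
        simp; omega
    · have h1 : i + 1 = n := by simpa [h0] using hv
      refine ⟨U (i - 1) (by omega), ?_⟩
      ext ⟨⟨j, c⟩, hj⟩
      simp only [SimpleGraph.mem_neighborSet, catG, adj0, U, Set.mem_singleton_iff,
        Subtype.mk.injEq, Prod.mk.injEq]
      cases c
      · have := hj.1
        simp only at this
        simp; omega
      · have := hj.2 rfl
        simp only at this
        simp
        try omega

theorem deg_inner (h : 2 ≤ n) (v : catV n) (hv : ¬ isLeaf v) :
    ((catG n).neighborSet v).ncard = 3 := by
  rw [Set.ncard_eq_three]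
  obtain ⟨⟨i, b⟩, hi⟩ := v
  simp only [isLeaf, not_or] at hv
  obtain ⟨hb, h0, h1⟩ := hv
  have hb' : b = false := by simpa using hb
  subst hb'
  have h2 := hi.1
  simp only at h2
  refine ⟨U (i - 1) (by omega), U (i + 1) (by omega), W i (by omega), ?_, ?_, ?_, ?_⟩
  · simp [U, Subtype.mk.injEq, Prod.mk.injEq]
  · simp [U, W, Subtype.mk.injEq, Prod.mk.injEq]
  · simp [U, W, Subtype.mk.injEq, Prod.mk.injEq]
  · ext ⟨⟨j, c⟩, hj⟩
    simp only [SimpleGraph.mem_neighborSet, catG, adj0, U, W, Set.mem_singleton_iff,
      Set.mem_insert_iff, Subtype.mk.injEq, Prod.mk.injEq]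
    cases c <;> simp
    · omega
    · omega

/-- the leaf in position `p` -/
def leafPos (p : Fin n) : catV n :=
  if h : 0 < p.1 ∧ p.1 + 1 < n then W p.1 h else U p.1 p.2

theorem leafPos_fst (p : Fin n) : (leafPos p).1.1 = p.1 := by
  unfold leafPos; split_ifs <;> rfl

theorem leafPos_snd (p : Fin n) : (leafPos p).1.2 = true ↔ (0 < p.1 ∧ p.1 + 1 < n) := by
  unfold leafPos; split_ifs with h
  · simp [W, h]
  · simp [U, h]

theorem leafPos_isLeaf (p : Fin n) : isLeaf (leafPos p) := by
  unfold isLeaf
  rw [leafPos_snd, leafPos_fst]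
  have := p.2
  omega

theorem isLeaf_iff (h : 2 ≤ n) (v : catV n) : ((catG n).neighborSet v).ncard = 1 ↔ isLeaf v := by
  constructor
  · intro h1
    by_contra h2
    rw [deg_inner h v h2] at h1
    omega
  · exact deg_leaf h v

noncomputable def leafEquiv (h : 2 ≤ n) :
    Fin n ≃ {v : catV n // ((catG n).neighborSet v).ncard = 1} :=
  Equiv.ofBijective (fun p => ⟨leafPos p, (isLeaf_iff h _).2 (leafPos_isLeaf p)⟩) (by
    constructor
    · intro p q hpq
      have h1 : leafPos p = leafPos q := by simpa using hpq
      have h2 := leafPos_fst p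
      rw [h1, leafPos_fst] at h2
      exact Fin.ext h2.symm
    · rintro ⟨v, hv⟩
      rw [isLeaf_iff h] at hv
      refine ⟨⟨v.1.1, v.2.1⟩, ?_⟩
      apply Subtype.ext
      apply Subtype.ext
      apply Prod.ext
      · exact leafPos_fst _
      · have h3 := leafPos_snd (⟨v.1.1, v.2.1⟩ : Fin n)
        rw [Bool.eq_iff_iff, h3]
        have h4 := v.2.2
        have h5 := v.2.1
        unfold isLeaf at hv
        constructor
        · intro h6; rcases hv with hv | hv | hv
          · exact hv
          · simp only at h6; omega
          · simp only at h6; omega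
        · exact h4)

/-- the caterpillar with `n` leaves whose leaf in position `π i` carries the label `i` -/
noncomputable def cat (h : 2 ≤ n) (π : Fin n ≃ Fin n) : PhyloTree n where
  V := catV n
  fin := inferInstance
  G := catG n
  tree := cat_tree h
  deg v := by
    by_cases hv : isLeaf v
    · exact Or.inl (deg_leaf h v hv)
    · exact Or.inr (deg_inner h v hv)
  leaf := π.trans (leafEquiv h)


/-- the partition given by data on positions -/
def relDE (pos : Fin n → ℕ) (D E : ℕ → Prop) (i j : Fin n) : Prop :=
  i = j ∨ (D (pos i) ∧ D (pos j) ∧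
    ∀ l, min (pos i) (pos j) ≤ l → l < max (pos i) (pos j) → E l)

theorem induced_aux (h : 2 ≤ n) (π : Fin n ≃ Fin n) (S : Set (Sym2 (catV n))) (i j : Fin n) :
    (cat h π).induced S i j ↔ relDE (fun i => (π i).1)
      (fun p => (0 < p ∧ p + 1 < n) → ∀ v w : catV n, v.1 = (p, false) → w.1 = (p, true) →
        s(v, w) ∉ S) (fun l => l + 1 < n → ∀ v w : catV n, v.1 = (l, false) →
        w.1 = (l + 1, false) → s(v, w) ∉ S) i j := by
  have hval : (cat h π).induced S i j ↔
      ((catG n).deleteEdges S).Reachable (leafPos (π i)) (leafPos (π j)) := Iff.rfl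
  rw [hval]
  constructor
  · intro hr
    have := Q_of_reachable ((catG n).deleteEdges S) (SimpleGraph.deleteEdges_le _)
      (fun p => (0 < p ∧ p + 1 < n) → ∀ v w : catV n, v.1 = (p, false) → w.1 = (p, true) →
        s(v, w) ∉ S) (fun l => l + 1 < n → ∀ v w : catV n, v.1 = (l, false) →
        w.1 = (l + 1, false) → s(v, w) ∉ S) (by
          intro a b hab ha hb hl _ v w hv hw
          rw [SimpleGraph.deleteEdges_adj] at hab
          have e1 : a = v := Subtype.ext (by rw [hv]; exact Prod.ext rfl ha)
          have e2 : b = w := Subtype.ext (by rw [hw]; exact Prod.ext hl.symm hb)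
          rw [← e1, ← e2]; exact hab.2) (by
          intro a b hab ha hb _ v w hv hw
          rw [SimpleGraph.deleteEdges_adj] at hab
          have e0 : a.1.1 = b.1.1 := by
            rcases hab.1 with hc | hc
            · rcases hc with hc | hc
              · rw [hb] at hc; simp at hc
              · exact hc.2.2
            · rcases hc with hc | hc
              · rw [hb] at hc; simp at hc
              · rw [hb] at hc; simp at hc
          have e1 : a = v := Subtype.ext (by rw [hv]; exact Prod.ext e0 ha)
          have e2 : b = w := Subtype.ext (by rw [hw]; exact Prod.ext rfl hb)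
          rw [← e1, ← e2]; exact hab.2) _ _ hr
    rcases this with h1 | ⟨h1, h2, h3⟩
    · left
      have h4 : (π i) = (π j) := by
        have := congrArg Prod.fst h1
        rw [leafPos_fst, leafPos_fst] at this
        exact Fin.ext this
      exact π.injective h4
    · right
      refine ⟨?_, ?_, ?_⟩
      · intro hp
        have := h1 ((leafPos_snd _).2 hp)
        rw [leafPos_fst] at this
        exact this hp
      · intro hp
        have := h2 ((leafPos_snd _).2 hp)
        rw [leafPos_fst] at this
        exact this hp
      · intro l hl1 hl2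
        exact h3 l (by rw [leafPos_fst, leafPos_fst]; exact hl1)
          (by rw [leafPos_fst, leafPos_fst]; exact hl2)
  · intro hr
    rcases hr with rfl | ⟨h1, h2, h3⟩
    · exact SimpleGraph.Reachable.refl _
    · apply reachable_of_Q ((catG n).deleteEdges S)
        (fun p => (0 < p ∧ p + 1 < n) → ∀ v w : catV n, v.1 = (p, false) → w.1 = (p, true) →
        s(v, w) ∉ S) (fun l => l + 1 < n → ∀ v w : catV n, v.1 = (l, false) →
        w.1 = (l + 1, false) → s(v, w) ∉ S)
      · intro l hl hE
        rw [SimpleGraph.deleteEdges_adj]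
        exact ⟨Or.inl (Or.inl ⟨rfl, rfl, rfl⟩), hE hl _ _ rfl rfl⟩
      · intro p hp hD
        rw [SimpleGraph.deleteEdges_adj]
        exact ⟨Or.inl (Or.inr ⟨rfl, rfl, rfl⟩), hD hp _ _ rfl rfl⟩
      · right
        refine ⟨?_, ?_, ?_⟩
        · intro _; rw [leafPos_fst]; exact h1
        · intro _; rw [leafPos_fst]; exact h2
        · intro l hl1 hl2
          rw [leafPos_fst, leafPos_fst] at hl1 hl2
          exact h3 l hl1 hl2

theorem mem_parts_iff (h : 2 ≤ n) (π : Fin n ≃ Fin n) (s : Setoid (Fin n)) :
    s ∈ (cat h π).parts ↔ ∃ D E : ℕ → Prop, ∀ i j, s i j ↔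
      relDE (fun i => (π i).1) D E i j := by
  constructor
  · rintro ⟨S, -, rfl⟩
    exact ⟨_, _, induced_aux h π S⟩
  · rintro ⟨D, E, hs⟩
    set E' : ℕ → Prop := fun l => E l ∧ (l = 0 → D 0) ∧ (l + 2 = n → D (n - 1)) with hE'
    set S : Set (Sym2 (catV n)) := {e | e ∈ (catG n).edgeSet ∧ ∃ v w : catV n, e = s(v, w) ∧
      ((v.1.2 = false ∧ w.1.2 = false ∧ v.1.1 + 1 = w.1.1 ∧ ¬ E' v.1.1) ∨
       (v.1.2 = false ∧ w.1.2 = true ∧ ¬ D w.1.1))} with hS
    refine ⟨S, fun e he => he.1, ?_⟩
    ext i j
    have hval : (cat h π).induced S i j ↔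
        ((catG n).deleteEdges S).Reachable (leafPos (π i)) (leafPos (π j)) := Iff.rfl
    rw [hval, hs]
    have conv : ((catG n).deleteEdges S).Reachable (leafPos (π i)) (leafPos (π j)) ↔
        Q D E' (leafPos (π i)).1 (leafPos (π j)).1 := by
      constructor
      · intro hr
        apply Q_of_reachable _ (SimpleGraph.deleteEdges_le _) D E' _ _ _ _ hr
        · intro a b hab ha hb hl
          rw [SimpleGraph.deleteEdges_adj] at hab
          by_contra hc
          exact hab.2 ⟨hab.1, a, b, rfl, Or.inl ⟨ha, hb, hl, hc⟩⟩
        · intro a b hab ha hb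
          rw [SimpleGraph.deleteEdges_adj] at hab
          by_contra hc
          exact hab.2 ⟨hab.1, a, b, rfl, Or.inr ⟨ha, hb, hc⟩⟩
      · intro hr
        apply reachable_of_Q _ D E' _ _ _ _ hr
        · intro l hl hE
          rw [SimpleGraph.deleteEdges_adj]
          refine ⟨Or.inl (Or.inl ⟨rfl, rfl, rfl⟩), ?_⟩
          rintro ⟨-, v, w, hvw, hc⟩
          rw [Sym2.eq_iff] at hvw
          rcases hvw with ⟨h1, h2⟩ | ⟨h1, h2⟩
          · rw [← h1, ← h2] at hc
            rcases hc with hc | hc
            · exact hc.2.2.2 hE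
            · exact absurd hc.2.1 (by simp [U])
          · rw [← h1, ← h2] at hc
            rcases hc with hc | hc
            · have := hc.2.2.1
              simp only [U] at this
              omega
            · exact absurd hc.2.1 (by simp [U])
        · intro p hp hDp
          rw [SimpleGraph.deleteEdges_adj]
          refine ⟨Or.inl (Or.inr ⟨rfl, rfl, rfl⟩), ?_⟩
          rintro ⟨-, v, w, hvw, hc⟩
          rw [Sym2.eq_iff] at hvw
          rcases hvw with ⟨h1, h2⟩ | ⟨h1, h2⟩
          · rw [← h1, ← h2] at hc
            rcases hc with hc | hc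
            · exact absurd hc.2.1 (by simp [W])
            · exact hc.2.2 hDp
          · rw [← h1, ← h2] at hc
            rcases hc with hc | hc
            · exact absurd hc.1 (by simp [W])
            · exact absurd hc.1 (by simp [W])
    rw [conv]
    have hi := (π i).2
    have hj := (π j).2
    constructor
    · intro hq
      rcases hq with h1 | ⟨h1, h2, h3⟩
      · left
        have := congrArg Prod.fst h1
        rw [leafPos_fst, leafPos_fst] at this
        exact π.injective (Fin.ext this)
      · rw [leafPos_fst, leafPos_fst] at h3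
        by_cases hij : i = j
        · exact Or.inl hij
        · right
          have hne : (π i).1 ≠ (π j).1 := fun hh => hij (π.injective (Fin.ext hh))
          have aux : ∀ a b : ℕ, a < n → b < n → a ≠ b → att D ((leafPos (π i)).1) →
              (∀ l, min a b ≤ l → l < max a b → E' l) → (a = 0 → D a) ∧ (a + 1 = n → D a) := by
            intro a b ha hb hab _ hl
            constructor
            · intro h0
              rw [h0]
              exact (hl 0 (by omega) (by omega)).2.1 rfl
            · intro h0
              have h5 := (hl (n - 2) (by omega) (by omega)).2.2 (by omega)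
              have h6 : a = n - 1 := by omega
              rw [h6]; exact h5
          refine ⟨?_, ?_, fun l a b => (h3 l a b).1⟩
          · by_cases hint : 0 < (π i).1 ∧ (π i).1 + 1 < n
            · have := h1 ((leafPos_snd _).2 hint)
              rwa [leafPos_fst] at this
            · have := aux _ _ hi hj hne h1 h3
              by_cases h0 : (π i).1 = 0
              · exact this.1 h0
              · exact this.2 (by omega)
          · by_cases hint : 0 < (π j).1 ∧ (π j).1 + 1 < n
            · have := h2 ((leafPos_snd _).2 hint)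
              rwa [leafPos_fst] at this
            · have := aux _ _ hj hi hne.symm h1 (by rw [min_comm, max_comm]; exact h3)
              by_cases h0 : (π j).1 = 0
              · exact this.1 h0
              · exact this.2 (by omega)
    · intro hq
      rcases hq with rfl | ⟨h1, h2, h3⟩
      · left; rfl
      · right
        refine ⟨?_, ?_, ?_⟩
        · intro _; rw [leafPos_fst]; exact h1
        · intro _; rw [leafPos_fst]; exact h2
        · intro l hl1 hl2
          rw [leafPos_fst, leafPos_fst] at hl1 hl2
          refine ⟨h3 l hl1 hl2, ?_, ?_⟩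
          · intro h0
            subst h0
            have : (π i).1 = 0 ∨ (π j).1 = 0 := by omega
            rcases this with h5 | h5
            · rw [← h5]; exact h1
            · rw [← h5]; exact h2
          · intro h0
            have : (π i).1 = n - 1 ∨ (π j).1 = n - 1 := by omega
            rcases this with h5 | h5
            · rw [← h5]; exact h1
            · rw [← h5]; exact h2

end Pool.Agent.Q151.Phy
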