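import Pool.Agent.Q151.Phy.Cat

/-! # Counting classes by their least elements -/

namespace Pool.Agent.Q151.Phy

variable {n : ℕ}

/-- the least elements of the classes -/
def mins (s : Setoid (Fin n)) : Set (Fin n) := {i | ∀ j < i, ¬ s j i}

theorem exists_min (s : Setoid (Fin n)) (y : Fin n) : ∃ i ∈ mins s, s i y := by
  induction y using WellFoundedLT.induction with
  | ind y ih =>
    by_cases h : y ∈ mins s
    · exact ⟨y, h, s.refl y⟩
    · simp only [mins, Set.mem_ofPred_eq] at h
      push Not at h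
      obtain ⟨j, hj, hjy⟩ := h
      obtain ⟨i, hi, hij⟩ := ih j hj
      exact ⟨i, hi, s.trans hij hjy⟩

theorem classes_ncard (s : Setoid (Fin n)) : s.classes.ncard = (mins s).ncard := by
  have h : s.classes = (fun i => {x | s x i}) '' mins s := by
    ext A
    simp only [Setoid.classes, Set.mem_ofPred_eq, Set.mem_image]
    constructor
    · rintro ⟨y, rfl⟩
      obtain ⟨i, hi, hiy⟩ := exists_min s y
      refine ⟨i, hi, ?_⟩
      ext x
      exact ⟨fun hx => s.trans hx hiy, fun hx => s.trans hx (s.symm hiy)⟩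
    · rintro ⟨i, hi, rfl⟩
      exact ⟨i, rfl⟩
  rw [h]
  apply Set.InjOn.ncard_image
  intro i hi j hj hij
  have h1 : s i j := by
    have h2 : i ∈ {x | s x i} := s.refl i
    have h3 : {x | s x i} = {x | s x j} := hij
    rw [h3] at h2
    exact h2
  rcases lt_trichotomy i j with h2 | h2 | h2
  · exact absurd h1 (hj i h2)
  · exact h2
  · exact absurd (s.symm h1) (hi j h2)

instance : Finite (Setoid (Fin n)) :=
  Finite.of_injective (fun s : Setoid (Fin n) => (fun i j => s i j : Fin n → Fin n → Prop))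
    (by
      intro s t h
      apply Setoid.ext
      intro a b
      exact iff_of_eq (congrFun (congrFun h a) b))

/-- lower bounds through injections -/
theorem le_common {α : Type*} (T F : PhyloTree n) (k : ℕ) (A : Finset α) (f : α → Setoid (Fin n))
    (hf : ∀ a ∈ A, f a ∈ T.parts ∧ f a ∈ F.parts ∧ (mins (f a)).ncard = k)
    (hinj : Set.InjOn f A) : A.card ≤ common T F k := by
  unfold common
  rw [← Set.ncard_coe_finset A, ← Set.InjOn.ncard_image hinj]
  apply Set.ncard_le_ncard _ (Set.toFinite _)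
  rintro _ ⟨a, ha, rfl⟩
  obtain ⟨h1, h2, h3⟩ := hf a ha
  exact ⟨h1, h2, by rw [classes_ncard]; exact h3⟩

/-- the partition with at most one non-trivial class `A` -/
def oneClass (A : Finset (Fin n)) : Setoid (Fin n) where
  r i j := i = j ∨ (i ∈ A ∧ j ∈ A)
  iseqv := by
    refine ⟨fun i => Or.inl rfl, ?_, ?_⟩
    · rintro i j (rfl | ⟨h1, h2⟩)
      · exact Or.inl rfl
      · exact Or.inr ⟨h2, h1⟩
    · rintro i j k (rfl | ⟨h1, h2⟩) (rfl | ⟨h3, h4⟩)
      · exact Or.inl rfl
      · exact Or.inr ⟨h3, h4⟩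
      · exact Or.inr ⟨h1, h2⟩
      · exact Or.inr ⟨h1, h4⟩

theorem oneClass_mem (h : 2 ≤ n) (π : Fin n ≃ Fin n) (A : Finset (Fin n)) :
    oneClass A ∈ (cat h π).parts := by
  rw [mem_parts_iff]
  refine ⟨fun p => ∃ hp : p < n, π.symm ⟨p, hp⟩ ∈ A, fun _ => True, ?_⟩
  intro i j
  have : oneClass A i j ↔ (i = j ∨ (i ∈ A ∧ j ∈ A)) := Iff.rfl
  rw [this]
  simp [relDE]

theorem oneClass_mins (A : Finset (Fin n)) (hA : A.Nonempty) :
    (mins (oneClass A)).ncard = n - A.card + 1 := by
  classical
  have h : mins (oneClass A) = ↑(insert (A.min' hA) (Finset.univ \ A)) := by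
    ext i
    simp only [mins, Set.mem_ofPred_eq, Finset.coe_insert, Finset.coe_sdiff, Finset.coe_univ,
      Set.mem_insert_iff, Set.mem_sdiff, Set.mem_univ, true_and, Finset.mem_coe]
    have hr : ∀ j, oneClass A j i ↔ (j = i ∨ (j ∈ A ∧ i ∈ A)) := fun j => Iff.rfl
    constructor
    · intro h1
      by_cases hi : i ∈ A
      · left
        have h2 := A.min'_mem hA
        rcases (A.min'_le i hi).lt_or_eq with h3 | h3
        · exact absurd ((hr _).2 (Or.inr ⟨h2, hi⟩)) (h1 _ h3)
        · exact h3.symm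
      · right; exact hi
    · rintro (rfl | h1) j hj
      · rw [hr]
        rintro (h2 | h2)
        · exact absurd h2 (ne_of_lt hj)
        · exact absurd (A.min'_le j h2.1) (not_le.2 hj)
      · rw [hr]
        rintro (h2 | h2)
        · exact absurd h2 (ne_of_lt hj)
        · exact h1 h2.2
  rw [h, Set.ncard_coe_finset, Finset.card_insert_of_notMem (by simp [A.min'_mem hA]),
    Finset.card_sdiff_of_subset (Finset.subset_univ _), Finset.card_univ, Fintype.card_fin]

theorem choose_le_common (h : 2 ≤ n) (π ρ : Fin n ≃ Fin n) (k : ℕ) (h1 : 1 ≤ k) (h2 : k + 1 ≤ n) :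
    n.choose (k - 1) ≤ common (cat h π) (cat h ρ) k := by
  classical
  have hc : (Finset.powersetCard (n - (k - 1)) (Finset.univ : Finset (Fin n))).card
      = n.choose (k - 1) := by
    rw [Finset.card_powersetCard, Finset.card_univ, Fintype.card_fin, Nat.choose_symm (by omega)]
  rw [← hc]
  apply le_common _ _ _ _ oneClass
  · intro A hA
    rw [Finset.mem_powersetCard] at hA
    have hne : A.Nonempty := by
      rw [← Finset.card_pos]; omega
    refine ⟨oneClass_mem h π A, oneClass_mem h ρ A, ?_⟩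
    rw [oneClass_mins A hne]; omega
  · intro A hA B hB hAB
    have hA' := (Finset.mem_powersetCard.1 (Finset.mem_coe.1 hA)).2
    have hB' := (Finset.mem_powersetCard.1 (Finset.mem_coe.1 hB)).2
    have rec_ : ∀ C : Finset (Fin n), 2 ≤ C.card → ∀ i, i ∈ C ↔ ∃ j, j ≠ i ∧ oneClass C i j := by
      intro C hC i
      constructor
      · intro hi
        obtain ⟨j, hj, hji⟩ := Finset.exists_mem_ne (by omega : 1 < C.card) i
        exact ⟨j, hji, Or.inr ⟨hi, hj⟩⟩
      · rintro ⟨j, hji, h3 | h3⟩
        · exact absurd h3.symm hji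
        · exact h3.1
    ext i
    rw [rec_ A (by omega), rec_ B (by omega), hAB]

end Pool.Agent.Q151.Phy
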