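import Mathlib

/-! # Phylogenetic trees and the partitions they induce

Definitions for `MP_afdbb1_co`. -/

namespace Pool.Agent.Q151.Phy

/-- An `n`-leaf phylogenetic tree (`n ≥ 2`): a finite tree all of whose vertices have degree
`1` or `3`, whose vertices of degree `1` (the leaves) are labelled bijectively by `Fin n`.
The degree of `v` is written as the number of its neighbours. -/
structure PhyloTree (n : ℕ) where
  /-- the vertices -/
  V : Type
  fin : Finite V
  /-- the graph -/
  G : SimpleGraph V
  tree : G.IsTree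
  deg : ∀ v, (G.neighborSet v).ncard = 1 ∨ (G.neighborSet v).ncard = 3
  /-- the labelling of the leaves -/
  leaf : Fin n ≃ {v : V // (G.neighborSet v).ncard = 1}

variable {n : ℕ}

/-- The partition of the labels obtained by deleting the edges in `S`: two labels lie in the
same class when their leaves lie in the same component of `G - S`. -/
def PhyloTree.induced (T : PhyloTree n) (S : Set (Sym2 T.V)) : Setoid (Fin n) :=
  (T.G.deleteEdges S).reachableSetoid.comap (fun i => (T.leaf i : T.V))

/-- `𝔓(T)`: all partitions of the labels obtained by deleting a set of edges of `T`. -/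
def PhyloTree.parts (T : PhyloTree n) : Set (Setoid (Fin n)) :=
  {s | ∃ S : Set (Sym2 T.V), S ⊆ T.G.edgeSet ∧ T.induced S = s}

/-- `a_k(T,F)`: the number of common induced partitions with exactly `k` classes. -/
noncomputable def common (T F : PhyloTree n) (k : ℕ) : ℕ :=
  {s : Setoid (Fin n) | s ∈ T.parts ∧ s ∈ F.parts ∧ s.classes.ncard = k}.ncard

/-- `a_1, …, a_n` is unimodal. -/
def Unimodal (n : ℕ) (a : ℕ → ℕ) : Prop :=
  ∃ m, 1 ≤ m ∧ m ≤ n ∧ (∀ i j, 1 ≤ i → i ≤ j → j ≤ m → a i ≤ a j) ∧
    (∀ i j, m ≤ i → i ≤ j → j ≤ n → a j ≤ a i)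

/-- `a_1, …, a_n` is log-concave. -/
def LogConcave (n : ℕ) (a : ℕ → ℕ) : Prop :=
  ∀ k, 1 < k → k < n → a (k - 1) * a (k + 1) ≤ a k ^ 2

end Pool.Agent.Q151.Phy
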