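import Pool.Agent.Q151.Phy.Num

/-! # Two peaks -/

namespace Pool.Agent.Q151.Phy

theorem two_le : 2 ≤ 7 * 300 := by norm_num

/-- the first tree -/
noncomputable def treeT : PhyloTree (7 * 300) := cat two_le (tauE 300)

/-- the second tree -/
noncomputable def treeF : PhyloTree (7 * 300) := cat two_le (Equiv.refl _)

theorem numA : 2 * 4096 * (80000 ^ 300 * 6743) < (3 ^ 1260 * 2 ^ (7 * 300 - 1260)) *
    (Nat.factorial 2169 / (Nat.factorial 829 * Nat.factorial (2169 - 829))) := by decide +kernel

theorem numB : 2 * 4096 * (980000 ^ 300 * 203179732) < (3 ^ 1260 * 5 ^ (7 * 300 - 1260)) *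
    (Nat.factorial 2169 / (Nat.factorial 829 * Nat.factorial (2169 - 829))) := by decide +kernel

theorem numC : Nat.factorial 2169 / (Nat.factorial 829 * Nat.factorial (2169 - 829)) ≤
    Nat.factorial 2100 / (Nat.factorial 1050 * Nat.factorial (2100 - 1050)) := by decide +kernel

theorem arith (x y u v w z X c : ℕ) (hA : x * w ≤ u) (hB : y * z ≤ v)
    (nA : 2 * 4096 * u < w * X) (nB : 2 * 4096 * v < z * X) (hc : c ≤ x + y) : 4096 * c < X := by
  have e1 : 2 * 4096 * x < X := by
    apply lt_of_mul_lt_mul_left _ (Nat.zero_le w)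
    calc w * (2 * 4096 * x) = 2 * 4096 * (x * w) := by ring
      _ ≤ 2 * 4096 * u := Nat.mul_le_mul_left _ hA
      _ < w * X := nA
  have e2 : 2 * 4096 * y < X := by
    apply lt_of_mul_lt_mul_left _ (Nat.zero_le z)
    calc z * (2 * 4096 * y) = 2 * 4096 * (y * z) := by ring
      _ ≤ 2 * 4096 * v := Nat.mul_le_mul_left _ hB
      _ < z * X := nB
  omega

theorem valley : 4096 * common treeT treeF 1260 < Nat.choose 2169 829 := by
  classical
  have h1 : common treeT treeF 1260 ≤
      {s : Setoid (Fin (7 * 300)) | s ∈ (cat two_le (tauE 300)).parts ∧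
      s ∈ (cat two_le (Equiv.refl _)).parts ∧ s.classes.ncard = 1260 ∧ @decide (mode s)
      (Classical.propDecidable _) = true}.ncard +
      {s : Setoid (Fin (7 * 300)) | s ∈ (cat two_le (tauE 300)).parts ∧
      s ∈ (cat two_le (Equiv.refl _)).parts ∧ s.classes.ncard = 1260 ∧ @decide (mode s)
      (Classical.propDecidable _) = false}.ncard := by
    unfold common
    refine le_trans (Set.ncard_le_ncard ?_ (Set.toFinite _)) (Set.ncard_union_le _ _)
    rintro s ⟨h2, h3, h4⟩
    by_cases hm : mode s
    · left; exact ⟨h2, h3, h4, by simp [hm]⟩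
    · right; exact ⟨h2, h3, h4, by simp [hm]⟩
  rw [Nat.choose_eq_factorial_div_factorial (show 829 ≤ 2169 by norm_num)]
  exact arith _ _ _ _ _ _ _ _ (countA 1260 two_le) (countB 1260 two_le) numA numB h1

theorem choose_le_of_fac (n k n' k' : ℕ) (h : k ≤ n) (h' : k' ≤ n')
    (H : Nat.factorial n / (Nat.factorial k * Nat.factorial (n - k)) ≤
      Nat.factorial n' / (Nat.factorial k' * Nat.factorial (n' - k'))) :
    n.choose k ≤ n'.choose k' := by
  rw [Nat.choose_eq_factorial_div_factorial h, Nat.choose_eq_factorial_div_factorial h']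
  exact H

theorem peak1 : Nat.choose 2169 829 ≤ common treeT treeF 1051 := by
  have h := choose_le_common two_le (tauE 300) (Equiv.refl _) 1051 (by norm_num) (by norm_num)
  have e1 : 7 * 300 = 2100 := by norm_num
  have e2 : 1051 - 1 = 1050 := by norm_num
  have e : Nat.choose (7 * 300) (1051 - 1) = Nat.choose 2100 1050 := congrArg₂ Nat.choose e1 e2
  have h3 := choose_le_of_fac 2169 829 2100 1050 (by norm_num) (by norm_num) numC
  exact le_trans (le_of_le_of_eq h3 e.symm) h

theorem peak2 : Nat.choose 2169 829 ≤ common treeT treeF 1430 :=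
  low3 300 1499 829 (by norm_num) two_le

theorem pos_common (k : ℕ) (h1 : 1 ≤ k) (h2 : k + 1 ≤ 7 * 300) : 0 < common treeT treeF k :=
  lt_of_lt_of_le (Nat.choose_pos (by omega))
    (choose_le_common two_le (tauE 300) (Equiv.refl _) k h1 h2)

theorem not_unimodal_of (n : ℕ) (a : ℕ → ℕ) (i j k : ℕ) (hi : 1 ≤ i) (hij : i < j) (hjk : j < k)
    (hk : k ≤ n) (h1 : a j < a i) (h2 : a j < a k) : ¬ Unimodal n a := by
  rintro ⟨m, hm1, hm2, h3, h4⟩
  rcases Nat.le_total j m with h | h
  · have := h3 i j hi hij.le h; omega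
  · have := h4 j k h hjk.le hk; omega

theorem not_logConcave_of (n : ℕ) (a : ℕ → ℕ) (i j k : ℕ) (hi : 1 ≤ i) (hij : i < j) (hjk : j < k)
    (hk : k ≤ n) (hpos : ∀ t, i ≤ t → t ≤ k → 0 < a t) (h1 : a j < a i) (h2 : a j < a k) :
    ¬ LogConcave n a := by
  intro hlc
  have hdesc : ∃ t, i ≤ t ∧ t < j ∧ a (t + 1) < a t := by
    by_contra hc
    push Not at hc
    have : ∀ d, i + d ≤ j → a i ≤ a (i + d) := by
      intro d
      induction d with
      | zero => intro _; exact le_refl _
      | succ d ih => intro hd; exact (ih (by omega)).trans (hc (i + d) (by omega) (by omega))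
    have h3 := this (j - i) (by omega)
    rw [Nat.add_sub_cancel' hij.le] at h3
    omega
  obtain ⟨t, ht1, ht2, ht3⟩ := hdesc
  have step : ∀ d, t + d + 1 ≤ k → a (t + d + 1) ≤ a (t + d) := by
    intro d
    induction d with
    | zero => intro _; exact ht3.le
    | succ d ih =>
      intro hd
      have h3 := ih (by omega)
      have h4 := hlc (t + d + 1) (by omega) (by omega)
      rw [Nat.add_sub_cancel] at h4
      have h5 : a (t + d) * a (t + d + 1 + 1) ≤ a (t + d) * a (t + d + 1) := by
        calc a (t + d) * a (t + d + 1 + 1) ≤ a (t + d + 1) ^ 2 := h4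
          _ = a (t + d + 1) * a (t + d + 1) := sq _
          _ ≤ _ := Nat.mul_le_mul_right _ h3
      exact Nat.le_of_mul_le_mul_left h5 (hpos _ (by omega) (by omega))
  have mono : ∀ d, j + d ≤ k → a (j + d) ≤ a j := by
    intro d
    induction d with
    | zero => intro _; exact le_refl _
    | succ d ih =>
      intro hd
      have h3 := step (j + d - t) (by omega)
      rw [show t + (j + d - t) = j + d by omega] at h3
      exact h3.trans (ih (by omega))
  have h3 := mono (k - j) (by omega)
  rw [Nat.add_sub_cancel' hjk.le] at h3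
  omega

theorem two_peaks : 4096 * common treeT treeF 1260 < common treeT treeF 1051 ∧
    4096 * common treeT treeF 1260 < common treeT treeF 1430 :=
  ⟨lt_of_lt_of_le valley peak1, lt_of_lt_of_le valley peak2⟩

end Pool.Agent.Q151.Phy
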