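import Pool.Agent.Q151.Phy.Cls

/-! # The lower bound from partitions of the block -/

namespace Pool.Agent.Q151.Phy

/-- letters: single leaf, first / inner / last member of a non-trivial class -/
inductive Lt | sg | lf | md | rt
  deriving DecidableEq

open Lt

def bw : ℕ → Bool → ℕ → Finset (List Lt)
  | 0, false, 0 => {[]}
  | 0, false, _ + 1 => ∅
  | 0, true, _ => ∅
  | _ + 1, false, 0 => ∅
  | m + 1, false, k + 1 => (bw m false k).image (sg :: ·) ∪ (bw m true k).image (lf :: ·)
  | m + 1, true, 0 => (bw m true 0).image (md :: ·) ∪ (bw m false 0).image (rt :: ·)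
  | m + 1, true, k + 1 => (bw m true k).image (sg :: ·) ∪
      ((bw m true (k + 1)).image (md :: ·) ∪ (bw m false (k + 1)).image (rt :: ·))

theorem card_im (a : Lt) (A : Finset (List Lt)) : (A.image (a :: ·)).card = A.card :=
  Finset.card_image_of_injective _ (List.cons_injective)

theorem disj_im (a b : Lt) (h : a ≠ b) (A B : Finset (List Lt)) :
    Disjoint (A.image (a :: ·)) (B.image (b :: ·)) := by
  rw [Finset.disjoint_left]
  intro x hx hy
  rw [Finset.mem_image] at hx hy
  obtain ⟨u, _, rfl⟩ := hx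
  obtain ⟨v, _, hv⟩ := hy
  exact h (List.cons.inj hv).1.symm

theorem card2 (a b : Lt) (h : a ≠ b) (A B : Finset (List Lt)) :
    (A.image (a :: ·) ∪ B.image (b :: ·)).card = A.card + B.card := by
  rw [Finset.card_union_of_disjoint (disj_im a b h A B), card_im, card_im]

theorem card3 (a b c : Lt) (h : a ≠ b) (h' : a ≠ c) (h'' : b ≠ c) (A B C : Finset (List Lt)) :
    (A.image (a :: ·) ∪ (B.image (b :: ·) ∪ C.image (c :: ·))).card
      = A.card + (B.card + C.card) := by
  rw [Finset.card_union_of_disjoint, card2 b c h'', card_im]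
  rw [Finset.disjoint_union_right]
  exact ⟨disj_im a b h A B, disj_im a c h' A C⟩

theorem bw_card (m : ℕ) : (∀ k, (bw (m + 1) false (k + 1)).card = (2 * m - k).choose k) ∧
    (∀ k, (bw (m + 1) true k).card = (2 * m + 1 - k).choose k) := by
  induction m with
  | zero =>
    constructor
    · intro k
      cases k with
      | zero => simp [bw]
      | succ k => simp [bw]
    · intro k
      cases k with
      | zero => simp [bw]
      | succ k => simp [bw]
  | succ m ih =>
    obtain ⟨ih1, ih2⟩ := ih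
    constructor
    · intro k
      cases k with
      | zero =>
        have h1 : bw (m + 1 + 1) false (0 + 1) =
          (bw (m + 1) false 0).image (sg :: ·) ∪ (bw (m + 1) true 0).image (lf :: ·) := rfl
        rw [h1, card2 _ _ (by decide), ih2]
        have : bw (m + 1) false 0 = ∅ := rfl
        rw [this]; simp
      | succ k =>
        have h1 : bw (m + 1 + 1) false (k + 1 + 1) =
          (bw (m + 1) false (k + 1)).image (sg :: ·) ∪ (bw (m + 1) true (k + 1)).image (lf :: ·)
            := rfl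
        rw [h1, card2 _ _ (by decide), ih2, ih1]
        by_cases hk : k ≤ 2 * m
        · have e1 : 2 * m + 1 - (k + 1) = 2 * m - k := by omega
          have e2 : 2 * (m + 1) - (k + 1) = (2 * m - k) + 1 := by omega
          rw [e1, e2, Nat.choose_succ_succ]
        · have e1 : 2 * m + 1 - (k + 1) = 0 := by omega
          have e2 : 2 * (m + 1) - (k + 1) = 0 := by omega
          have e3 : 2 * m - k = 0 := by omega
          rw [e1, e2, e3]
          have : k ≠ 0 := by omega
          obtain ⟨k', rfl⟩ := Nat.exists_eq_succ_of_ne_zero this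
          simp
    · intro k
      cases k with
      | zero =>
        have h1 : bw (m + 1 + 1) true 0 =
          (bw (m + 1) true 0).image (md :: ·) ∪ (bw (m + 1) false 0).image (rt :: ·) := rfl
        rw [h1, card2 _ _ (by decide), ih2]
        have : bw (m + 1) false 0 = ∅ := rfl
        rw [this]; simp
      | succ k =>
        have h1 : bw (m + 1 + 1) true (k + 1) = (bw (m + 1) true k).image (sg :: ·) ∪
          ((bw (m + 1) true (k + 1)).image (md :: ·) ∪
            (bw (m + 1) false (k + 1)).image (rt :: ·)) := rfl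
        rw [h1, card3 _ _ _ (by decide) (by decide) (by decide), ih2, ih2, ih1]
        by_cases hk : k ≤ 2 * m
        · have e1 : 2 * m + 1 - (k + 1) = 2 * m - k := by omega
          have e2 : 2 * (m + 1) + 1 - (k + 1) = (2 * m + 1 - k) + 1 := by omega
          have e3 : 2 * m + 1 - k = (2 * m - k) + 1 := by omega
          rw [e1, e2, Nat.choose_succ_succ]
          congr 1
          rw [e3, Nat.choose_succ_succ, add_comm]
        · have e1 : 2 * m + 1 - (k + 1) = 0 := by omega
          have e3 : 2 * m - k = 0 := by omega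
          have e4 : 2 * m + 1 - k = 0 := by omega
          rw [e1, e3, e4]
          have e2 : (2 * (m + 1) + 1 - (k + 1)).choose (k + 1) = 0 :=
            Nat.choose_eq_zero_of_lt (by omega)
          rw [e2]
          have : k ≠ 0 := by omega
          obtain ⟨k', rfl⟩ := Nat.exists_eq_succ_of_ne_zero this
          simp

/-- one step of the automaton that reads the letters -/
def stepB (a : Bool) (x : Lt) (b : Bool) : Prop :=
  match x with
  | sg => a = b
  | lf => a = false ∧ b = true
  | md => a = true ∧ b = true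
  | rt => a = true ∧ b = false

theorem bw_spec (m : ℕ) : ∀ (b : Bool) (k : ℕ) (w : List Lt), w ∈ bw m b k →
    w.length = m ∧ ∃ st : ℕ → Bool, st 0 = b ∧ st m = false ∧
      (∀ l < m, stepB (st l) (w.getD l sg) (st (l + 1))) ∧
      Nat.count (fun l => w.getD l sg = sg ∨ w.getD l sg = lf) m = k := by
  induction m with
  | zero =>
    intro b k w hw
    cases b with
    | false =>
      cases k with
      | zero =>
        simp only [bw, Finset.mem_singleton] at hw
        subst hw
        exact ⟨rfl, fun _ => false, rfl, rfl, by simp, by simp⟩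
      | succ k => simp [bw] at hw
    | true => simp [bw] at hw
  | succ m ih =>
    intro b k w hw
    have key : ∀ (b' : Bool) (k' : ℕ) (x : Lt), w ∈ (bw m b' k').image (x :: ·) →
        stepB b x b' → k = k' + (if x = sg ∨ x = lf then 1 else 0) →
        w.length = m + 1 ∧ ∃ st : ℕ → Bool, st 0 = b ∧ st (m + 1) = false ∧
        (∀ l < m + 1, stepB (st l) (w.getD l sg) (st (l + 1))) ∧
        Nat.count (fun l => w.getD l sg = sg ∨ w.getD l sg = lf) (m + 1) = k := by
      intro b' k' x hx hst hk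
      rw [Finset.mem_image] at hx
      obtain ⟨w', hw', rfl⟩ := hx
      obtain ⟨h1, st, h2, h3, h4, h5⟩ := ih b' k' w' hw'
      refine ⟨by simp [h1], fun l => Nat.casesOn l b st, rfl, h3, ?_, ?_⟩
      · intro l hl
        cases l with
        | zero =>
          simp only [List.getD_cons_zero]
          change stepB b x (st 0)
          rw [h2]
          exact hst
        | succ l =>
          simp only [List.getD_cons_succ]
          exact h4 l (by omega)
      · rw [Nat.count_succ']
        simp only [List.getD_cons_succ, List.getD_cons_zero]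
        rw [h5, hk]
    cases b with
    | false =>
      cases k with
      | zero => simp [bw] at hw
      | succ k =>
        have h1 : bw (m + 1) false (k + 1) =
          (bw m false k).image (sg :: ·) ∪ (bw m true k).image (lf :: ·) := rfl
        rw [h1, Finset.mem_union] at hw
        rcases hw with hw | hw
        · exact key false k sg hw (by simp [stepB]) (by simp)
        · exact key true k lf hw (by simp [stepB]) (by simp)
    | true =>
      cases k with
      | zero =>
        have h1 : bw (m + 1) true 0 =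
          (bw m true 0).image (md :: ·) ∪ (bw m false 0).image (rt :: ·) := rfl
        rw [h1, Finset.mem_union] at hw
        rcases hw with hw | hw
        · exact key true 0 md hw (by simp [stepB]) (by simp)
        · exact key false 0 rt hw (by simp [stepB]) (by simp)
      | succ k =>
        have h1 : bw (m + 1) true (k + 1) = (bw m true k).image (sg :: ·) ∪
          ((bw m true (k + 1)).image (md :: ·) ∪
            (bw m false (k + 1)).image (rt :: ·)) := rfl
        rw [h1, Finset.mem_union, Finset.mem_union] at hw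
        rcases hw with hw | hw | hw
        · exact key true k sg hw (by simp [stepB]) (by simp)
        · exact key true (k + 1) md hw (by simp [stepB]) (by simp)
        · exact key false (k + 1) rt hw (by simp [stepB]) (by simp)

section facts

variable {m : ℕ} {wl : ℕ → Lt} {st : ℕ → Bool}

theorem fact1 (h0 : st 0 = false) (hs : ∀ l < m, stepB (st l) (wl l) (st (l + 1))) (l : ℕ)
    (hl : l ≤ m) (h : st l = true) : ∃ a < l, wl a = lf ∧ ∀ t, a ≤ t → t < l → wl t ≠ rt := by
  induction l with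
  | zero => rw [h0] at h; exact absurd h (by simp)
  | succ l ih =>
    have h1 := hs l (by omega)
    cases hw : wl l with
    | sg =>
      rw [hw] at h1
      simp only [stepB] at h1
      obtain ⟨a, ha, ha1, ha2⟩ := ih (by omega) (by rw [h1, h])
      refine ⟨a, by omega, ha1, fun t h2 h3 => ?_⟩
      by_cases h4 : t = l
      · rw [h4, hw]; simp
      · exact ha2 t h2 (by omega)
    | lf =>
      refine ⟨l, by omega, hw, fun t h2 h3 => ?_⟩
      have : t = l := by omega
      rw [this, hw]; simp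
    | md =>
      rw [hw] at h1
      simp only [stepB] at h1
      obtain ⟨a, ha, ha1, ha2⟩ := ih (by omega) h1.1
      refine ⟨a, by omega, ha1, fun t h2 h3 => ?_⟩
      by_cases h4 : t = l
      · rw [h4, hw]; simp
      · exact ha2 t h2 (by omega)
    | rt =>
      rw [hw] at h1
      simp only [stepB] at h1
      rw [h1.2] at h; exact absurd h (by simp)

theorem fact2 (hs : ∀ l < m, stepB (st l) (wl l) (st (l + 1))) (a l : ℕ)
    (hl : l ≤ m) (hal : a < l) (ha : wl a ≠ sg) (h : st l = false) :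
    ∃ t, a ≤ t ∧ t < l ∧ wl t = rt := by
  induction l with
  | zero => omega
  | succ l ih =>
    have h1 := hs l (by omega)
    by_cases hc : wl l = rt
    · exact ⟨l, by omega, by omega, hc⟩
    · have h2 : wl l = sg ∧ st l = false := by
        cases hw : wl l with
        | sg => rw [hw] at h1; exact ⟨rfl, by simp only [stepB] at h1; rw [h1, h]⟩
        | lf => rw [hw, h] at h1; simp [stepB] at h1
        | md => rw [hw, h] at h1; simp [stepB] at h1
        | rt => exact absurd hw hc
      have h3 : a ≠ l := fun hh => ha (hh ▸ h2.1)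
      obtain ⟨t, h4, h5, h6⟩ := ih (by omega) (by omega) h2.2
      exact ⟨t, h4, by omega, h6⟩

theorem fact3 (hm : st m = false) (hs : ∀ l < m, stepB (st l) (wl l) (st (l + 1))) (d l : ℕ)
    (hl : l + d = m) (h : st l = true) :
    ∃ t, l ≤ t ∧ t < m ∧ wl t = rt ∧ ∀ t', l ≤ t' → t' < t → wl t' ≠ rt := by
  induction d generalizing l with
  | zero => rw [add_zero] at hl; rw [hl, hm] at h; exact absurd h (by simp)
  | succ d ih =>
    have h1 := hs l (by omega)
    by_cases hc : wl l = rt
    · exact ⟨l, le_refl _, by omega, hc, fun t' h2 h3 => by omega⟩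
    · have h2 : st (l + 1) = true := by
        cases hw : wl l with
        | sg => rw [hw] at h1; simp only [stepB] at h1; rw [← h1, h]
        | lf => rw [hw, h] at h1; simp [stepB] at h1
        | md => rw [hw, h] at h1; simp only [stepB] at h1; exact h1.2
        | rt => exact absurd hw hc
      obtain ⟨t, h3, h4, h5, h6⟩ := ih (l + 1) (by omega) h2
      refine ⟨t, by omega, h4, h5, fun t' h7 h8 => ?_⟩
      by_cases h9 : t' = l
      · rw [h9]; exact hc
      · exact h6 t' (by omega) h8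

end facts

variable {n : ℕ}

/-- the partition given by data on positions, as a setoid -/
def setDE (pos : Fin n → ℕ) (D E : ℕ → Prop) : Setoid (Fin n) where
  r := relDE pos D E
  iseqv := by
    refine ⟨fun i => Or.inl rfl, ?_, ?_⟩
    · rintro i j (rfl | ⟨h1, h2, h3⟩)
      · exact Or.inl rfl
      · exact Or.inr ⟨h2, h1, by rw [min_comm, max_comm]; exact h3⟩
    · rintro i j k (rfl | ⟨h1, h2, h3⟩) (rfl | ⟨h4, h5, h6⟩)
      · exact Or.inl rfl
      · exact Or.inr ⟨h4, h5, h6⟩
      · exact Or.inr ⟨h1, h2, h3⟩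
      · refine Or.inr ⟨h1, h5, fun l a b => ?_⟩
        by_cases h7 : min (pos i) (pos j) ≤ l ∧ l < max (pos i) (pos j)
        · exact h3 l h7.1 h7.2
        · exact h6 l (by omega) (by omega)

/-- position in the first tree: first the leaves `≡ 5`, then the block, then those `≡ 6` -/
def tau (q p : ℕ) : ℕ :=
  if p % 7 = 5 then p / 7 else if p % 7 = 6 then 6 * q + p / 7 else q + (5 * (p / 7) + p % 7)

theorem tau_lt (q p : ℕ) (hp : p < 7 * q) : tau q p < 7 * q := by
  unfold tau; split_ifs <;> omega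

theorem tau_inj (q p p' : ℕ) (hp : p < 7 * q) (hp' : p' < 7 * q) (h : tau q p = tau q p') :
    p = p' := by
  unfold tau at h
  split_ifs at h <;> omega

noncomputable def tauE (q : ℕ) : Fin (7 * q) ≃ Fin (7 * q) :=
  Equiv.ofBijective (fun p => ⟨tau q p.1, tau_lt q p.1 p.2⟩) (by
    rw [← Finite.injective_iff_bijective]
    intro a b h
    exact Fin.ext (tau_inj q a.1 b.1 a.2 b.2 (congrArg Fin.val h)))

theorem tauE_val (q : ℕ) (p : Fin (7 * q)) : (tauE q p).1 = tau q p.1 := rfl

/-- the partition of the labels coded by a word on the block -/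
def dec (q : ℕ) (wl : ℕ → Lt) : Setoid (Fin (7 * q)) :=
  setDE (fun i => i.1) (fun p => p % 7 ≤ 4 ∧ wl (5 * (p / 7) + p % 7) ≠ sg)
    (fun p => wl (5 * (p / 7) + min (p % 7) 4) ≠ rt)

theorem dec_iff (q : ℕ) (wl : ℕ → Lt) (i j : Fin (7 * q)) : dec q wl i j ↔
    (i = j ∨ ((i.1 % 7 ≤ 4 ∧ wl (5 * (i.1 / 7) + i.1 % 7) ≠ sg) ∧
      (j.1 % 7 ≤ 4 ∧ wl (5 * (j.1 / 7) + j.1 % 7) ≠ sg) ∧
      ∀ l, min i.1 j.1 ≤ l → l < max i.1 j.1 → wl (5 * (l / 7) + min (l % 7) 4) ≠ rt)) :=
  Iff.rfl

/-- the same in terms of indices in the block -/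
theorem dec_lt (q : ℕ) (wl : ℕ → Lt) (i j : Fin (7 * q)) (hij : i < j) : dec q wl i j ↔
    (i.1 % 7 ≤ 4 ∧ wl (5 * (i.1 / 7) + i.1 % 7) ≠ sg) ∧
      (j.1 % 7 ≤ 4 ∧ wl (5 * (j.1 / 7) + j.1 % 7) ≠ sg) ∧
      ∀ l, 5 * (i.1 / 7) + i.1 % 7 ≤ l → l < 5 * (j.1 / 7) + j.1 % 7 → wl l ≠ rt := by
  rw [dec_iff]
  have hij' : i.1 < j.1 := hij
  constructor
  · rintro (h | ⟨h1, h2, h3⟩)
    · exact absurd h (ne_of_lt hij)
    · refine ⟨h1, h2, fun l h4 h5 => ?_⟩
      have h6 := h3 (7 * (l / 5) + l % 5) (by omega) (by omega)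
      have e : 5 * ((7 * (l / 5) + l % 5) / 7) + min ((7 * (l / 5) + l % 5) % 7) 4 = l := by omega
      rwa [e] at h6
  · rintro ⟨h1, h2, h3⟩
    refine Or.inr ⟨h1, h2, fun l h4 h5 => ?_⟩
    exact h3 _ (by omega) (by omega)

theorem dec_memF (q : ℕ) (h : 2 ≤ 7 * q) (wl : ℕ → Lt) :
    dec q wl ∈ (cat h (Equiv.refl _)).parts := by
  rw [mem_parts_iff]
  exact ⟨_, _, fun i j => Iff.rfl⟩

theorem dec_memT (q : ℕ) (h : 2 ≤ 7 * q) (wl : ℕ → Lt) :
    dec q wl ∈ (cat h (tauE q)).parts := by
  rw [mem_parts_iff]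
  refine ⟨fun t => q ≤ t ∧ t < 6 * q ∧ wl (t - q) ≠ sg, fun t => q ≤ t → wl (t - q) ≠ rt, ?_⟩
  intro i j
  -- compare for B-leaves
  have hD : ∀ i : Fin (7 * q), (q ≤ (tauE q i).1 ∧ (tauE q i).1 < 6 * q ∧
      wl ((tauE q i).1 - q) ≠ sg) ↔ (i.1 % 7 ≤ 4 ∧ wl (5 * (i.1 / 7) + i.1 % 7) ≠ sg) := by
    intro i
    rw [tauE_val]
    have hi := i.2
    unfold tau
    split_ifs with h1 h2
    · constructor
      · rintro ⟨a, -, -⟩; omega
      · rintro ⟨a, -⟩; omega
    · constructor
      · rintro ⟨a, b, -⟩; omega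
      · rintro ⟨a, -⟩; omega
    · have e : q + (5 * (i.1 / 7) + i.1 % 7) - q = 5 * (i.1 / 7) + i.1 % 7 := by omega
      rw [e]
      constructor
      · rintro ⟨a, b, c⟩; exact ⟨by omega, c⟩
      · rintro ⟨a, c⟩; exact ⟨by omega, by omega, c⟩
  have main : ∀ i j : Fin (7 * q), i < j → (dec q wl i j ↔ relDE (fun i => ((tauE q) i).1)
      (fun t => q ≤ t ∧ t < 6 * q ∧ wl (t - q) ≠ sg) (fun t => q ≤ t → wl (t - q) ≠ rt) i j) := by
    intro i j hij
    rw [dec_lt q wl i j hij]
    unfold relDE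
    simp only [hD]
    have hij' : i.1 < j.1 := hij
    constructor
    · rintro ⟨h1, h2, h3⟩
      refine Or.inr ⟨h1, h2, fun l h4 h5 h6 => ?_⟩
      rw [tauE_val, tauE_val] at h4 h5
      have e1 : tau q i.1 = q + (5 * (i.1 / 7) + i.1 % 7) := by
        unfold tau; rw [if_neg (by omega), if_neg (by omega)]
      have e2 : tau q j.1 = q + (5 * (j.1 / 7) + j.1 % 7) := by
        unfold tau; rw [if_neg (by omega), if_neg (by omega)]
      rw [e1, e2] at h4 h5
      exact h3 (l - q) (by omega) (by omega)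
    · rintro (h1 | ⟨h1, h2, h3⟩)
      · exact absurd h1 (ne_of_lt hij)
      · refine ⟨h1, h2, fun l h4 h5 => ?_⟩
        have e1 : tau q i.1 = q + (5 * (i.1 / 7) + i.1 % 7) := by
          unfold tau; rw [if_neg (by omega), if_neg (by omega)]
        have e2 : tau q j.1 = q + (5 * (j.1 / 7) + j.1 % 7) := by
          unfold tau; rw [if_neg (by omega), if_neg (by omega)]
        have := h3 (q + l) (by rw [tauE_val, tauE_val, e1, e2]; omega)
          (by rw [tauE_val, tauE_val, e1, e2]; omega) (by omega)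
        rwa [Nat.add_sub_cancel_left] at this
  rcases lt_trichotomy i j with h1 | h1 | h1
  · exact main i j h1
  · subst h1
    exact ⟨fun _ => Or.inl rfl, fun _ => Setoid.refl' _ _⟩
  · have h2 := main j i h1
    constructor
    · intro h3
      exact (setDE (fun i => ((tauE q) i).1) _ _).symm' (h2.1 ((dec q wl).symm' h3))
    · intro h3
      exact (dec q wl).symm' (h2.2 ((setDE (fun i => ((tauE q) i).1) _ _).symm' h3))

theorem count_seven (P : ℕ → Prop) [DecidablePred P] (q : ℕ) :
    Nat.count (fun i => 5 ≤ i % 7 ∨ P (5 * (i / 7) + i % 7)) (7 * q) =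
      2 * q + Nat.count P (5 * q) := by
  induction q with
  | zero => simp
  | succ q ih =>
    have e1 : 7 * (q + 1) = 7 * q + 1 + 1 + 1 + 1 + 1 + 1 + 1 := by ring
    have e2 : 5 * (q + 1) = 5 * q + 1 + 1 + 1 + 1 + 1 := by ring
    rw [e1, e2]
    simp only [Nat.count_succ]
    rw [ih]
    have a0 : 5 * ((7 * q) / 7) + (7 * q) % 7 = 5 * q := by omega
    have a1 : 5 * ((7 * q + 1) / 7) + (7 * q + 1) % 7 = 5 * q + 1 := by omega
    have a2 : 5 * ((7 * q + 1 + 1) / 7) + (7 * q + 1 + 1) % 7 = 5 * q + 1 + 1 := by omega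
    have a3 : 5 * ((7 * q + 1 + 1 + 1) / 7) + (7 * q + 1 + 1 + 1) % 7 = 5 * q + 1 + 1 + 1 := by
      omega
    have a4 : 5 * ((7 * q + 1 + 1 + 1 + 1) / 7) + (7 * q + 1 + 1 + 1 + 1) % 7
      = 5 * q + 1 + 1 + 1 + 1 := by omega
    have b0 : ¬ 5 ≤ (7 * q) % 7 := by omega
    have b1 : ¬ 5 ≤ (7 * q + 1) % 7 := by omega
    have b2 : ¬ 5 ≤ (7 * q + 1 + 1) % 7 := by omega
    have b3 : ¬ 5 ≤ (7 * q + 1 + 1 + 1) % 7 := by omega
    have b4 : ¬ 5 ≤ (7 * q + 1 + 1 + 1 + 1) % 7 := by omega
    have b5 : 5 ≤ (7 * q + 1 + 1 + 1 + 1 + 1) % 7 := by omega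
    have b6 : 5 ≤ (7 * q + 1 + 1 + 1 + 1 + 1 + 1) % 7 := by omega
    simp only [a0, a1, a2, a3, a4, b0, b1, b2, b3, b4, b5, b6, false_or, true_or, if_true]
    ring

theorem ncard_count (N : ℕ) (P : ℕ → Prop) [DecidablePred P] :
    {i : Fin N | P i.1}.ncard = Nat.count P N := by
  rw [Nat.count_eq_card_filter_range, ← Set.ncard_coe_finset,
    ← Set.InjOn.ncard_image (Fin.val_injective.injOn (s := {i : Fin N | P i.1}))]
  congr 1
  ext x
  simp only [Set.mem_image, Set.mem_ofPred_eq, Finset.coe_filter, Finset.mem_range]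
  constructor
  · rintro ⟨i, hi, rfl⟩; exact ⟨i.2, hi⟩
  · rintro ⟨h1, h2⟩; exact ⟨⟨x, h1⟩, h2, rfl⟩

section decfacts

variable {q : ℕ} {wl : ℕ → Lt} {st : ℕ → Bool}

theorem dec_min (h0 : st 0 = false) (hm : st (5 * q) = false)
    (hs : ∀ l < 5 * q, stepB (st l) (wl l) (st (l + 1))) (i : Fin (7 * q)) :
    (∀ j < i, ¬ dec q wl j i) ↔ (5 ≤ i.1 % 7 ∨ (wl (5 * (i.1 / 7) + i.1 % 7) = sg ∨
      wl (5 * (i.1 / 7) + i.1 % 7) = lf)) := by
  have hi := i.2
  constructor
  · intro h
    by_contra hc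
    push Not at hc
    obtain ⟨h1, h2, h3⟩ := hc
    have hst : st (5 * (i.1 / 7) + i.1 % 7) = true := by
      have := hs (5 * (i.1 / 7) + i.1 % 7) (by omega)
      cases hw : wl (5 * (i.1 / 7) + i.1 % 7) with
      | sg => exact absurd hw h2
      | lf => exact absurd hw h3
      | md => rw [hw] at this; exact this.1
      | rt => rw [hw] at this; exact this.1
    obtain ⟨a, ha, ha1, ha2⟩ := fact1 h0 hs _ (by omega) hst
    have hj : 7 * (a / 5) + a % 5 < 7 * q := by omega
    have hlt : (⟨7 * (a / 5) + a % 5, hj⟩ : Fin (7 * q)) < i := by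
      rw [Fin.lt_def]; simp only; omega
    apply h ⟨7 * (a / 5) + a % 5, hj⟩ hlt
    rw [dec_lt _ _ _ _ hlt]
    have e : 5 * ((7 * (a / 5) + a % 5) / 7) + (7 * (a / 5) + a % 5) % 7 = a := by omega
    simp only [e]
    refine ⟨⟨by omega, by rw [ha1]; simp⟩, ⟨by omega, h2⟩, ha2⟩
  · intro h j hj hji
    rw [dec_lt _ _ _ _ hj] at hji
    obtain ⟨⟨h1, h2⟩, ⟨h3, h4⟩, h5⟩ := hji
    have hj' : j.1 < i.1 := hj
    rcases h with h | h | h
    · omega
    · exact h4 h
    · have hst : st (5 * (i.1 / 7) + i.1 % 7) = false := by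
        have := hs (5 * (i.1 / 7) + i.1 % 7) (by omega)
        rw [h] at this; exact this.1
      obtain ⟨t, h6, h7, h8⟩ := fact2 hs (5 * (j.1 / 7) + j.1 % 7) _ (by omega) (by omega) h2 hst
      exact h5 t h6 h7 h8

theorem dec_max (h0 : st 0 = false) (hm : st (5 * q) = false)
    (hs : ∀ l < 5 * q, stepB (st l) (wl l) (st (l + 1))) (i : Fin (7 * q)) (hi4 : i.1 % 7 ≤ 4) :
    (∀ j > i, ¬ dec q wl i j) ↔ (wl (5 * (i.1 / 7) + i.1 % 7) = sg ∨
      wl (5 * (i.1 / 7) + i.1 % 7) = rt) := by
  have hi := i.2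
  constructor
  · intro h
    by_contra hc
    push Not at hc
    obtain ⟨h2, h3⟩ := hc
    have hst : st (5 * (i.1 / 7) + i.1 % 7 + 1) = true := by
      have := hs (5 * (i.1 / 7) + i.1 % 7) (by omega)
      cases hw : wl (5 * (i.1 / 7) + i.1 % 7) with
      | sg => exact absurd hw h2
      | lf => rw [hw] at this; exact this.2
      | md => rw [hw] at this; exact this.2
      | rt => exact absurd hw h3
    obtain ⟨a, ha, ha0, ha1, ha2⟩ := fact3 hm hs (5 * q - (5 * (i.1 / 7) + i.1 % 7 + 1)) _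
      (by omega) hst
    have hj : 7 * (a / 5) + a % 5 < 7 * q := by omega
    have hlt : i < (⟨7 * (a / 5) + a % 5, hj⟩ : Fin (7 * q)) := by
      rw [Fin.lt_def]; simp only; omega
    apply h ⟨7 * (a / 5) + a % 5, hj⟩ hlt
    rw [dec_lt _ _ _ _ hlt]
    have e : 5 * ((7 * (a / 5) + a % 5) / 7) + (7 * (a / 5) + a % 5) % 7 = a := by omega
    simp only [e]
    refine ⟨⟨by omega, h2⟩, ⟨by omega, by rw [ha1]; simp⟩, fun l h5 h6 => ?_⟩
    by_cases h7 : l = 5 * (i.1 / 7) + i.1 % 7
    · rw [h7]; exact h3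
    · exact ha2 l (by omega) h6
  · intro h j hj hji
    rw [dec_lt _ _ _ _ hj] at hji
    obtain ⟨⟨h1, h2⟩, ⟨h3, h4⟩, h5⟩ := hji
    have hj' : i.1 < j.1 := hj
    rcases h with h | h
    · exact h2 h
    · exact h5 _ (le_refl _) (by omega) h

end decfacts

theorem low3 (q m k : ℕ) (hm : m + 1 = 5 * q) (h : 2 ≤ 7 * q) :
    (2 * m - k).choose k ≤ common (cat h (tauE q)) (cat h (Equiv.refl _)) (2 * q + (k + 1)) := by
  classical
  rw [← (bw_card m).1 k]
  apply le_common _ _ _ _ (fun w => dec q (fun l => w.getD l sg))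
  · intro w hw
    refine ⟨dec_memT q h _, dec_memF q h _, ?_⟩
    obtain ⟨h1, st, h2, h3, h4, h5⟩ := bw_spec _ _ _ _ hw
    rw [hm] at h3 h4 h5
    have e : mins (dec q (fun l => w.getD l sg)) = {i : Fin (7 * q) | (fun p => 5 ≤ p % 7 ∨
        (fun l => w.getD l sg = sg ∨ w.getD l sg = lf) (5 * (p / 7) + p % 7)) i.1} := by
      ext i
      exact dec_min h2 h3 h4 i
    rw [e]
    refine (ncard_count (7 * q) (fun p => 5 ≤ p % 7 ∨
      (fun l => w.getD l sg = sg ∨ w.getD l sg = lf) (5 * (p / 7) + p % 7))).trans ?_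
    rw [count_seven (fun l => w.getD l sg = sg ∨ w.getD l sg = lf) q, h5]
  · intro w hw w' hw' hww
    obtain ⟨h1, st, h2, h3, h4, h5⟩ := bw_spec _ _ _ _ (Finset.mem_coe.1 hw)
    obtain ⟨h1', st', h2', h3', h4', h5'⟩ := bw_spec _ _ _ _ (Finset.mem_coe.1 hw')
    rw [hm] at h1 h1' h3 h4 h5 h3' h4' h5'
    simp only at hww
    apply List.ext_getElem (by rw [h1, h1'])
    intro l hl hl'
    have hlt : 7 * (l / 5) + l % 5 < 7 * q := by omega
    have a1 := dec_min h2 h3 h4 ⟨7 * (l / 5) + l % 5, hlt⟩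
    have a2 := dec_max h2 h3 h4 ⟨7 * (l / 5) + l % 5, hlt⟩ (by simp only; omega)
    have a1' := dec_min h2' h3' h4' ⟨7 * (l / 5) + l % 5, hlt⟩
    have a2' := dec_max h2' h3' h4' ⟨7 * (l / 5) + l % 5, hlt⟩ (by simp only; omega)
    rw [hww] at a1 a2
    rw [a1] at a1'
    rw [a2] at a2'
    have e : 5 * ((7 * (l / 5) + l % 5) / 7) + (7 * (l / 5) + l % 5) % 7 = l := by omega
    have e' : ¬ 5 ≤ (7 * (l / 5) + l % 5) % 7 := by omega
    simp only [e, e', false_or] at a1' a2'
    rw [List.getD_eq_getElem _ _ hl, List.getD_eq_getElem _ _ hl'] at a1' a2'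
    generalize w[l] = x at a1' a2' ⊢
    generalize w'[l] = y at a1' a2' ⊢
    cases x <;> cases y <;> simp_all

end Pool.Agent.Q151.Phy
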