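import Pool.Agent.Q151.Phy.Up2

/-! # The count of common partitions with `1260` classes, and the conclusion -/

namespace Pool.Agent.Q151.Phy

open Lt

theorem sum_toFinset_le' (L : List (List Lt)) (f : List Lt → ℕ) :
    ∑ x ∈ L.toFinset, f x ≤ (L.map f).sum := by
  classical
  induction L with
  | nil => simp
  | cons a L ih =>
    rw [List.toFinset_cons, List.map_cons, List.sum_cons]
    by_cases h : a ∈ L.toFinset
    · rw [Finset.insert_eq_of_mem h]; omega
    · rw [Finset.sum_insert h]; omega

open Classical in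
theorem word_weight {n : ℕ} (s : Setoid (Fin n)) (a b : ℕ) :
    (((List.range' 0 n).map (ltr s)).map (wt a b)).prod =
      a ^ (mins s).ncard * b ^ (n - (mins s).ncard) := by
  have e1 : (((List.range' 0 n).map (ltr s)).map (wt a b)).prod =
      ∏ p ∈ Finset.range n, wt a b (ltr s p) := by
    rw [List.map_map, ← List.range_eq_range']
    rfl
  have e2 : (mins s).ncard = ((Finset.range n).filter (fun p => ltr s p = sg ∨ ltr s p = lf)).card := by
    have : mins s = {i : Fin n | (fun p => ltr s p = sg ∨ ltr s p = lf) i.1} := by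
      ext i
      rw [← enc_min]
      have : ltr s i.1 = enc s i := by unfold ltr; rw [dif_pos i.2]
      simp only [Set.mem_ofPred_eq, this]
    rw [this]
    refine (ncard_count n (fun p => ltr s p = sg ∨ ltr s p = lf)).trans ?_
    rw [Nat.count_eq_card_filter_range]
  rw [e1, e2]
  unfold wt
  rw [Finset.prod_ite, Finset.prod_const, Finset.prod_const]
  congr 2
  have := Finset.card_filter_add_card_filter_not (s := Finset.range n)
    (fun p => ltr s p = sg ∨ ltr s p = lf)
  rw [Finset.card_range] at this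
  omega

open Classical in
theorem mode_count (q : ℕ) (h : 2 ≤ 7 * q) (m : Bool) (a b Λ : ℕ) (H : ℕ → State → ℕ)
    (h00 : ∀ st : State, (if st.2.2 = (false, false, false) then 1 else 0) ≤ H 0 st)
    (h01 : ∀ st : State, stepSum m a b 2 (H 0) st ≤ H 1 st)
    (h12 : ∀ st : State, stepSum m a b 1 (H 1) st ≤ H 2 st)
    (h23 : ∀ st : State, stepSum m a b 0 (H 2) st ≤ H 3 st)
    (h34 : ∀ st : State, stepSum m a b 0 (H 3) st ≤ H 4 st)
    (h45 : ∀ st : State, stepSum m a b 0 (H 4) st ≤ H 5 st)
    (h56 : ∀ st : State, stepSum m a b 0 (H 5) st ≤ H 6 st)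
    (h60 : ∀ st : State, stepSum m a b 0 (H 6) st ≤ Λ * H 0 st) (k : ℕ) :
    {s : Setoid (Fin (7 * q)) | s ∈ (cat h (tauE q)).parts ∧
      s ∈ (cat h (Equiv.refl _)).parts ∧ s.classes.ncard = k ∧ decide (mode s) = m}.ncard *
      (a ^ k * b ^ (7 * q - k)) ≤ Λ ^ q * H 0 (false, false, false, false, false) := by
  set A : Set (Setoid (Fin (7 * q))) := {s | s ∈ (cat h (tauE q)).parts ∧
      s ∈ (cat h (Equiv.refl _)).parts ∧ s.classes.ncard = k ∧ decide (mode s) = m} with hA
  have hfin : A.Finite := Set.toFinite _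
  set B := hfin.toFinset with hB
  have hcard : A.ncard = B.card := Set.ncard_eq_toFinset_card A hfin
  set f : Setoid (Fin (7 * q)) → List Lt := fun s => (List.range' 0 (7 * q)).map (ltr s) with hf
  have hrep : ∀ s ∈ B, (∃ D E, ∀ i j, s i j ↔ relDE (fun i : Fin (7 * q) => (tauE q i).1) D E i j) ∧
      (∃ D E, ∀ i j, s i j ↔ relDE (fun i : Fin (7 * q) => i.1) D E i j) ∧
      (mins s).ncard = k ∧ decide (mode s) = m := by
    intro s hs
    rw [hB, Set.Finite.mem_toFinset, hA] at hs
    obtain ⟨h1, h2, h3, h4⟩ := hs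
    rw [mem_parts_iff] at h1 h2
    rw [classes_ncard] at h3
    exact ⟨h1, h2, h3, h4⟩
  have hinj : Set.InjOn f B := by
    intro s hs s' hs' hss
    obtain ⟨-, ⟨D, E, hDE⟩, -⟩ := hrep s hs
    obtain ⟨-, ⟨D', E', hDE'⟩, -⟩ := hrep s' hs'
    apply enc_inj s s' D E D' E' hDE hDE'
    intro i
    have h5 : ∀ p ∈ List.range' 0 (7 * q), ltr s p = ltr s' p := List.map_inj_left.1 hss
    have h6 := h5 i.1 (by rw [List.mem_range'_1]; have := i.2; omega)
    unfold ltr at h6
    rwa [dif_pos i.2, dif_pos i.2] at h6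
  have hst0 : ∀ s : Setoid (Fin (7 * q)), stt s 0 = (false, false, false, false, false) := by
    intro s
    have hno : ∀ P, ¬ opn s P 0 := by
      rintro P ⟨i, j, h1, -⟩; omega
    have hno' : ∀ C : Fin (7 * q) → Prop, ¬ ex C 0 := by
      rintro C ⟨i, h1, -⟩; omega
    unfold stt
    simp only [hno, hno', decide_false]
  have hsub : B.image f ⊆ (accN m (7 * q) (false, false, false, false, false)).toFinset := by
    intro w hw
    rw [Finset.mem_image] at hw
    obtain ⟨s, hs, rfl⟩ := hw
    obtain ⟨⟨D', E', hDE'⟩, ⟨D, E, hDE⟩, -, h4⟩ := hrep s hs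
    rw [List.mem_toFinset]
    have := word_mem s D E D' E' hDE hDE' (7 * q) (le_refl _)
    rw [h4, Nat.sub_self, hst0] at this
    exact this
  have hpot := pot_bound m a b Λ H h00 h01 h12 h23 h34 h45 h56 h60 (7 * q)
    (false, false, false, false, false)
  have e7 : 7 * q / 7 = q := by omega
  have e8 : 7 * q % 7 = 0 := by omega
  rw [e7, e8] at hpot
  calc A.ncard * (a ^ k * b ^ (7 * q - k))
      = ∑ s ∈ B, (((f s).map (wt a b)).prod) := by
        rw [hcard, Finset.sum_congr rfl (g := fun _ => a ^ k * b ^ (7 * q - k)),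
          Finset.sum_const, smul_eq_mul]
        intro s hs
        rw [hf]
        simp only
        rw [word_weight, (hrep s hs).2.2.1]
    _ = ∑ w ∈ B.image f, (w.map (wt a b)).prod := by
        rw [Finset.sum_image hinj]
    _ ≤ ∑ w ∈ (accN m (7 * q) (false, false, false, false, false)).toFinset,
          (w.map (wt a b)).prod := Finset.sum_le_sum_of_subset hsub
    _ ≤ _ := sum_toFinset_le' _ _
    _ ≤ _ := hpot

def tabA : List (List ℕ) := [
  [6743, 103, 103, 103, 0, 0, 0, 0, 217, 3, 3, 3, 0, 0, 0, 0, 129, 2, 2, 2, 0, 0, 0, 0, 446, 6,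
   6, 6, 828479, 4433, 4433, 4433],
  [33933, 315, 315, 315, 0, 0, 0, 0, 651, 9, 9, 9, 0, 0, 0, 0, 14131, 216, 216, 216, 0, 0, 0, 0,
   15716, 236, 236, 236, 4155881, 22371, 22371, 22371],
  [171573, 972, 972, 972, 0, 0, 0, 0, 71121, 675, 675, 675, 0, 0, 0, 0, 42393, 648, 648, 648, 0,
   0, 0, 0, 146446, 1810, 1810, 1810, 20847271, 112485, 112485, 112485],
  [852174, 2916, 2916, 2916, 0, 0, 0, 0, 213363, 2025, 2025, 2025, 0, 0, 0, 0, 127179, 1944,
   1944, 1944, 0, 0, 0, 0, 439338, 5430, 5430, 5430, 104579501, 564369, 564369, 564369],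
  [4249629, 8748, 8748, 8748, 0, 0, 0, 0, 640089, 6075, 6075, 6075, 0, 0, 0, 0, 381537, 5832,
   5832, 5832, 0, 0, 0, 0, 1318014, 16290, 16290, 16290, 524601853, 2827677, 2827677, 2827677],
  [21231918, 26244, 26244, 26244, 0, 0, 0, 0, 1920267, 18225, 18225, 18225, 0, 0, 0, 0, 1144611,
   17496, 17496, 17496, 0, 0, 0, 0, 3954042, 48870, 48870, 48870, 2631508523, 14155881,
   14155881, 14155881],
  [106163397, 78732, 78732, 78732, 0, 0, 0, 0, 5760801, 54675, 54675, 54675, 0, 0, 0, 0,
   3433833, 52488, 52488, 52488, 0, 0, 0, 0, 11862126, 146610, 146610, 146610, 13200006451,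
   70831893, 70831893, 70831893]]

def tabB : List (List ℕ) := [
  [203179732, 293555, 293580, 915, 475434838, 686712, 686764, 1932, 775788, 1139, 1104, 4,
   2217464585, 3214802, 3191585, 9204, 760994, 1100, 1100, 4, 2207384040, 3188530, 3188779,
   9195, 0, 0, 0, 0, 0, 0, 0, 0],
  [621388515, 911550, 884040, 2757, 1426304514, 2060136, 2060292, 5796, 2327364, 3417, 3312, 12,
   6652393755, 9644406, 9574755, 27612, 1021986612, 1476575, 1476700, 4607, 18674970980,
   26976015, 26978132, 78135, 0, 0, 0, 0, 0, 0, 0, 0],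
  [1900080855, 2744901, 2744892, 8307, 4278913542, 6180408, 6180876, 17388, 3125561487, 4585086,
   4446696, 13881, 56326092615, 81712998, 81018240, 234681, 3065959836, 4429725, 4430100, 13821,
   56024912940, 80928045, 80934396, 234405, 0, 0, 0, 0, 0, 0, 0, 0],
  [19024925373, 27479142, 27481347, 77085, 43731712611, 63167769, 63171468, 180639, 9376684461,
   13755258, 13340088, 41643, 460109145195, 667428489, 661870380, 1918983, 9197879508, 13289175,
   13290300, 41463, 457699707795, 661148865, 661199628, 1916775, 0, 0, 0, 0, 0, 0, 0, 0],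
  [192255798303, 277691058, 277715394, 773172, 444978327753, 642737862, 642778479, 1830537,
   28130053383, 41265774, 40020264, 124929, 3775997788425, 5476823622, 5432369775, 15737289,
   27593638524, 39867525, 39870900, 124389, 3756722289225, 5426586630, 5427003759, 15719625, 0,
   0, 0, 0, 0, 0, 0, 0],
  [1944413860311, 2808445635, 2808693486, 7811127, 4521105613539, 6530358186, 6530804802,
   18510156, 84390160149, 123797322, 120060792, 374787, 31169261298915, 45203044266,
   44847535170, 129764172, 82780915572, 119602575, 119612700, 373167, 31015057305315,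
   44801148330, 44804607042, 129622860, 0, 0, 0, 0, 0, 0, 0, 0],
  [19666581375474, 28405280043, 28407787380, 78963849, 45890914209867, 66285093663, 66289905846,
   187136883, 253170480447, 371391966, 360182376, 1124361, 259076159692875, 375666582303,
   372823748790, 1077169011, 248342746716, 358807725, 358838100, 1119501, 257842527744075,
   372451414815, 372480323766, 1076038515, 0, 0, 0, 0, 0, 0, 0, 0]]


def b2n (b : Bool) : ℕ := if b then 1 else 0

def idx (st : State) : ℕ :=
  b2n st.1 + 2 * b2n st.2.1 + 4 * b2n st.2.2.1 + 8 * b2n st.2.2.2.1 + 16 * b2n st.2.2.2.2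

def HA (r : ℕ) (st : State) : ℕ := (tabA.getD r []).getD (idx st) 0
def HB (r : ℕ) (st : State) : ℕ := (tabB.getD r []).getD (idx st) 0

theorem countA (k : ℕ) (h : 2 ≤ 7 * 300) :
    {s : Setoid (Fin (7 * 300)) | s ∈ (cat h (tauE 300)).parts ∧
      s ∈ (cat h (Equiv.refl _)).parts ∧ s.classes.ncard = k ∧ @decide (mode s)
      (Classical.propDecidable _) = true}.ncard *
      (3 ^ k * 2 ^ (7 * 300 - k)) ≤ 80000 ^ 300 * 6743 :=
  mode_count 300 h true 3 2 80000 HA (by decide +kernel) (by decide +kernel) (by decide +kernel)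
    (by decide +kernel) (by decide +kernel) (by decide +kernel) (by decide +kernel)
    (by decide +kernel) k

theorem countB (k : ℕ) (h : 2 ≤ 7 * 300) :
    {s : Setoid (Fin (7 * 300)) | s ∈ (cat h (tauE 300)).parts ∧
      s ∈ (cat h (Equiv.refl _)).parts ∧ s.classes.ncard = k ∧ @decide (mode s)
      (Classical.propDecidable _) = false}.ncard *
      (3 ^ k * 5 ^ (7 * 300 - k)) ≤ 980000 ^ 300 * 203179732 :=
  mode_count 300 h false 3 5 980000 HB (by decide +kernel) (by decide +kernel) (by decide +kernel)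
    (by decide +kernel) (by decide +kernel) (by decide +kernel) (by decide +kernel)
    (by decide +kernel) k

end Pool.Agent.Q151.Phy
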