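import Pool.Agent.Q151.Phy.Low

/-! # The upper bound: words, states and potentials -/

namespace Pool.Agent.Q151.Phy

open Lt

/-- `(u1, u2, hb, h1, h2)`: a class crossing the first / second cut has been started; the open
class meets the block / the first group / the second group (all three false: no open class) -/
abbrev State : Type := Bool × Bool × Bool × Bool × Bool

def kinds : List (Bool × Bool × Bool) :=
  [(true, false, false), (false, true, false), (false, false, true), (true, true, false),
   (true, false, true), (false, true, true), (true, true, true)]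

def okK (m : Bool) (κ : Bool × Bool × Bool) : Bool :=
  match m with
  | true => !κ.1 || (κ.2.1 && κ.2.2)
  | false => !(κ.2.1 && κ.2.2)

def mt (c : ℕ) (κ : Bool × Bool × Bool) : Bool :=
  if c = 1 then κ.2.1 else if c = 2 then κ.2.2 else κ.1

def cr1 (κ : Bool × Bool × Bool) : Bool := κ.2.1 && (κ.1 || κ.2.2)
def cr2 (κ : Bool × Bool × Bool) : Bool := κ.2.2 && (κ.1 || κ.2.1)

def nxt (m : Bool) (c : ℕ) (st : State) : List (Lt × State) :=
  (sg, st) ::
  (if st.2.2 = (false, false, false) then
    kinds.filterMap (fun κ =>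
      if (mt c κ && okK m κ && (!cr1 κ || !st.1) && (!cr2 κ || !st.2.1)) = true then
        some (lf, (st.1 || cr1 κ, st.2.1 || cr2 κ, κ)) else none)
  else if (mt c st.2.2 && okK m st.2.2) = true then
    [(md, st), (rt, (st.1, st.2.1, false, false, false))] else [])

/-- type of the letter when `r` letters remain -/
def tyr (r : ℕ) : ℕ := if r % 7 = 1 then 2 else if r % 7 = 2 then 1 else 0

def accN (m : Bool) : ℕ → State → List (List Lt)
  | 0, st => if st.2.2 = (false, false, false) then [[]] else []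
  | r + 1, st => (nxt m (tyr (r + 1)) st).flatMap (fun x => (accN m r x.2).map (x.1 :: ·))

def wt (a b : ℕ) (x : Lt) : ℕ := if x = sg ∨ x = lf then a else b

def stepSum (m : Bool) (a b c : ℕ) (f : State → ℕ) (st : State) : ℕ :=
  ((nxt m c st).map (fun x => wt a b x.1 * f x.2)).sum

theorem pot_bound (m : Bool) (a b Λ : ℕ) (H : ℕ → State → ℕ)
    (h00 : ∀ st : State, (if st.2.2 = (false, false, false) then 1 else 0) ≤ H 0 st)
    (h01 : ∀ st : State, stepSum m a b 2 (H 0) st ≤ H 1 st)
    (h12 : ∀ st : State, stepSum m a b 1 (H 1) st ≤ H 2 st)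
    (h23 : ∀ st : State, stepSum m a b 0 (H 2) st ≤ H 3 st)
    (h34 : ∀ st : State, stepSum m a b 0 (H 3) st ≤ H 4 st)
    (h45 : ∀ st : State, stepSum m a b 0 (H 4) st ≤ H 5 st)
    (h56 : ∀ st : State, stepSum m a b 0 (H 5) st ≤ H 6 st)
    (h60 : ∀ st : State, stepSum m a b 0 (H 6) st ≤ Λ * H 0 st) (r : ℕ) (st : State) :
    ((accN m r st).map (fun w => (w.map (wt a b)).prod)).sum ≤ Λ ^ (r / 7) * H (r % 7) st := by
  induction r generalizing st with
  | zero =>
    have := h00 st
    unfold accN
    split_ifs with h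
    · rw [if_pos h] at this
      simpa using this
    · simp
  | succ r ih =>
    have e1 : ((accN m (r + 1) st).map (fun w => (w.map (wt a b)).prod)).sum =
        ((nxt m (tyr (r + 1)) st).map (fun x => wt a b x.1 *
          ((accN m r x.2).map (fun w => (w.map (wt a b)).prod)).sum)).sum := by
      have e0 : accN m (r + 1) st =
        (nxt m (tyr (r + 1)) st).flatMap (fun x => (accN m r x.2).map (x.1 :: ·)) := rfl
      rw [e0]
      generalize nxt m (tyr (r + 1)) st = L
      induction L with
      | nil => simp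
      | cons x L ihL =>
        rw [List.flatMap_cons, List.map_append, List.sum_append, ihL, List.map_cons, List.sum_cons]
        congr 1
        rw [List.map_map]
        have : ((fun w => (List.map (wt a b) w).prod) ∘ fun x_1 => x.1 :: x_1) =
            fun w => wt a b x.1 * (List.map (wt a b) w).prod := by
          funext w; simp
        rw [this, List.sum_map_mul_left]
    rw [e1]
    have e2 : ((nxt m (tyr (r + 1)) st).map (fun x => wt a b x.1 *
          ((accN m r x.2).map (fun w => (w.map (wt a b)).prod)).sum)).sum ≤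
        Λ ^ (r / 7) * stepSum m a b (tyr (r + 1)) (H (r % 7)) st := by
      unfold stepSum
      rw [← List.sum_map_mul_left]
      apply List.sum_le_sum
      intro x _
      calc wt a b x.1 * ((accN m r x.2).map (fun w => (w.map (wt a b)).prod)).sum
          ≤ wt a b x.1 * (Λ ^ (r / 7) * H (r % 7) x.2) := Nat.mul_le_mul_left _ (ih x.2)
        _ = Λ ^ (r / 7) * (wt a b x.1 * H (r % 7) x.2) := by ring
    refine e2.trans ?_
    have h7 : r % 7 < 7 := Nat.mod_lt _ (by norm_num)
    have hcases : r % 7 = 0 ∨ r % 7 = 1 ∨ r % 7 = 2 ∨ r % 7 = 3 ∨ r % 7 = 4 ∨ r % 7 = 5 ∨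
      r % 7 = 6 := by omega
    rcases hcases with h | h | h | h | h | h | h
    · have a1 : (r + 1) % 7 = 1 := by omega
      have a2 : (r + 1) / 7 = r / 7 := by omega
      have a3 : tyr (r + 1) = 2 := by simp [tyr, a1]
      rw [a1, a2, a3, h]; exact Nat.mul_le_mul_left _ (h01 st)
    · have a1 : (r + 1) % 7 = 2 := by omega
      have a2 : (r + 1) / 7 = r / 7 := by omega
      have a3 : tyr (r + 1) = 1 := by simp [tyr, a1]
      rw [a1, a2, a3, h]; exact Nat.mul_le_mul_left _ (h12 st)
    · have a1 : (r + 1) % 7 = 3 := by omega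
      have a2 : (r + 1) / 7 = r / 7 := by omega
      have a3 : tyr (r + 1) = 0 := by simp [tyr, a1]
      rw [a1, a2, a3, h]; exact Nat.mul_le_mul_left _ (h23 st)
    · have a1 : (r + 1) % 7 = 4 := by omega
      have a2 : (r + 1) / 7 = r / 7 := by omega
      have a3 : tyr (r + 1) = 0 := by simp [tyr, a1]
      rw [a1, a2, a3, h]; exact Nat.mul_le_mul_left _ (h34 st)
    · have a1 : (r + 1) % 7 = 5 := by omega
      have a2 : (r + 1) / 7 = r / 7 := by omega
      have a3 : tyr (r + 1) = 0 := by simp [tyr, a1]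
      rw [a1, a2, a3, h]; exact Nat.mul_le_mul_left _ (h45 st)
    · have a1 : (r + 1) % 7 = 6 := by omega
      have a2 : (r + 1) / 7 = r / 7 := by omega
      have a3 : tyr (r + 1) = 0 := by simp [tyr, a1]
      rw [a1, a2, a3, h]; exact Nat.mul_le_mul_left _ (h56 st)
    · have a1 : (r + 1) % 7 = 0 := by omega
      have a2 : (r + 1) / 7 = r / 7 + 1 := by omega
      have a3 : tyr (r + 1) = 0 := by simp [tyr, a1]
      rw [a1, a2, a3, h, pow_succ, mul_assoc]; exact Nat.mul_le_mul_left _ (h60 st)

section encode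

variable {n : ℕ}

/-- convexity -/
theorem conv_of_relDE (s : Setoid (Fin n)) (pos : Fin n → ℕ) (hinj : Function.Injective pos)
    (D E : ℕ → Prop) (h : ∀ i j, s i j ↔ relDE pos D E i j) (i j b b' : Fin n)
    (hij : s i j) (h1 : pos i ≤ pos b) (h2 : pos b ≤ pos j) (hne : b ≠ b') (hb : s b b') :
    s b i := by
  rw [h] at hij hb ⊢
  rcases hij with rfl | ⟨h3, h4, h5⟩
  · left; exact hinj (le_antisymm h2 h1)
  · rcases hb with hb | ⟨h6, h7, h8⟩
    · exact absurd hb hne
    · right
      exact ⟨h6, h3, fun l a c => h5 l (by omega) (by omega)⟩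

/-- two classes crossing the same cut are equal -/
theorem cut_of_relDE (s : Setoid (Fin n)) (pos : Fin n → ℕ) (hinj : Function.Injective pos)
    (D E : ℕ → Prop) (h : ∀ i j, s i j ↔ relDE pos D E i j) (c : ℕ) (a b a' b' : Fin n)
    (hab : s a b) (h1 : pos a < c) (h2 : c ≤ pos b) (hab' : s a' b') (h1' : pos a' < c)
    (h2' : c ≤ pos b') : s a a' := by
  have hne : a ≠ b := by rintro rfl; omega
  have hne' : a' ≠ b' := by rintro rfl; omega
  rcases Nat.le_total (pos a) (pos a') with h3 | h3
  · exact s.symm (conv_of_relDE s pos hinj D E h a b a' b' hab h3 (by omega) hne' hab')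
  · exact conv_of_relDE s pos hinj D E h a' b' a b hab' h3 (by omega) hne hab

open Classical in
/-- the letter of a label -/
noncomputable def enc (s : Setoid (Fin n)) (p : Fin n) : Lt :=
  if ∀ j < p, ¬ s j p then (if ∀ j > p, ¬ s p j then sg else lf)
  else (if ∀ j > p, ¬ s p j then rt else md)

theorem enc_sg (s : Setoid (Fin n)) (p : Fin n) :
    enc s p = sg ↔ (∀ j < p, ¬ s j p) ∧ (∀ j > p, ¬ s p j) := by
  unfold enc
  split_ifs with h1 h2 h3 <;> simp_all

theorem enc_lf (s : Setoid (Fin n)) (p : Fin n) :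
    enc s p = lf ↔ (∀ j < p, ¬ s j p) ∧ ∃ j > p, s p j := by
  unfold enc
  split_ifs with h1 h2 h3
  · simp only [reduceCtorEq, false_iff]
    rintro ⟨-, j, hj, hs⟩
    exact h2 j hj hs
  · push Not at h2
    exact ⟨fun _ => ⟨h1, h2⟩, fun _ => rfl⟩
  · simp only [reduceCtorEq, false_iff]
    rintro ⟨h4, -⟩
    exact h1 h4
  · simp only [reduceCtorEq, false_iff]
    rintro ⟨h4, -⟩
    exact h1 h4

theorem enc_rt (s : Setoid (Fin n)) (p : Fin n) :
    enc s p = rt ↔ (∃ j < p, s j p) ∧ ∀ j > p, ¬ s p j := by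
  unfold enc
  split_ifs with h1 h2 h3
  · simp only [reduceCtorEq, false_iff]
    rintro ⟨⟨j, hj, hs⟩, -⟩
    exact h1 j hj hs
  · simp only [reduceCtorEq, false_iff]
    rintro ⟨⟨j, hj, hs⟩, -⟩
    exact h1 j hj hs
  · push Not at h1
    exact ⟨fun _ => ⟨h1, h3⟩, fun _ => rfl⟩
  · simp only [reduceCtorEq, false_iff]
    rintro ⟨-, h4⟩
    exact h3 h4

theorem enc_md (s : Setoid (Fin n)) (p : Fin n) :
    enc s p = md ↔ (∃ j < p, s j p) ∧ ∃ j > p, s p j := by
  unfold enc
  split_ifs with h1 h2 h3
  · simp only [reduceCtorEq, false_iff]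
    rintro ⟨⟨j, hj, hs⟩, -⟩
    exact h1 j hj hs
  · simp only [reduceCtorEq, false_iff]
    rintro ⟨⟨j, hj, hs⟩, -⟩
    exact h1 j hj hs
  · simp only [reduceCtorEq, false_iff]
    rintro ⟨-, j, hj, hs⟩
    exact h3 j hj hs
  · push Not at h1 h3
    exact ⟨fun _ => ⟨h1, h3⟩, fun _ => rfl⟩

theorem enc_min (s : Setoid (Fin n)) (p : Fin n) :
    (enc s p = sg ∨ enc s p = lf) ↔ p ∈ mins s := by
  rw [enc_sg, enc_lf]
  simp only [mins, Set.mem_ofPred_eq]
  constructor
  · rintro (h | h) <;> exact h.1
  · intro h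
    by_cases h2 : ∀ j > p, ¬ s p j
    · exact Or.inl ⟨h, h2⟩
    · push Not at h2
      exact Or.inr ⟨h, h2⟩

/-- a partition that is convex in the label order is determined by its letters -/
theorem enc_rel (s : Setoid (Fin n)) (D E : ℕ → Prop)
    (h : ∀ i j, s i j ↔ relDE (fun i : Fin n => i.1) D E i j) (i j : Fin n) (hij : i < j) :
    s i j ↔ (enc s i ≠ sg ∧ enc s j ≠ sg ∧ ∀ l, i ≤ l → l < j → enc s l ≠ rt) := by
  have cv := conv_of_relDE s (fun i : Fin n => i.1) Fin.val_injective D E h
  constructor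
  · intro hs
    refine ⟨?_, ?_, ?_⟩
    · intro hc
      rw [enc_sg] at hc
      exact hc.2 j hij hs
    · intro hc
      rw [enc_sg] at hc
      exact hc.1 i hij hs
    · intro l h1 h2 hc
      rw [enc_rt] at hc
      obtain ⟨⟨k, hk, hkl⟩, h3⟩ := hc
      have := cv i j l k hs h1 h2.le (ne_of_gt hk) (s.symm hkl)
      exact h3 j h2 (s.trans this hs)
  · rintro ⟨h1, h2, h3⟩
    have key : ∀ d : ℕ, ∀ l : Fin n, l.1 = i.1 + d → l ≤ j → ∃ m : Fin n, l ≤ m ∧ s i m := by
      intro d
      induction d with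
      | zero =>
        intro l hl _
        exact ⟨i, by rw [Fin.le_def]; omega, s.refl i⟩
      | succ d ih =>
        intro l hl hlj
        have hlj' : l.1 ≤ j.1 := hlj
        obtain ⟨m, hm1, hm2⟩ := ih ⟨i.1 + d, by omega⟩ rfl (by rw [Fin.le_def]; simp only; omega)
        have hm1' : i.1 + d ≤ m.1 := hm1
        by_cases hc : m.1 = i.1 + d
        · have hmr := h3 m (by rw [Fin.le_def]; omega) (by rw [Fin.lt_def]; omega)
          have hms : enc s m ≠ sg := by
            by_cases hmi : m = i
            · rw [hmi]; exact h1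
            · intro hcs
              rw [enc_sg] at hcs
              have hne : m.1 ≠ i.1 := fun hh => hmi (Fin.ext hh)
              exact hcs.1 i (by rw [Fin.lt_def]; omega) hm2
          have : ∃ k > m, s m k := by
            by_contra hno
            push Not at hno
            by_cases h5 : ∀ k < m, ¬ s k m
            · exact hms ((enc_sg s m).2 ⟨h5, hno⟩)
            · push Not at h5
              exact hmr ((enc_rt s m).2 ⟨h5, hno⟩)
          obtain ⟨k, hk, hmk⟩ := this
          have hk' : m.1 < k.1 := hk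
          exact ⟨k, by rw [Fin.le_def]; omega, s.trans hm2 hmk⟩
        · exact ⟨m, by rw [Fin.le_def]; omega, hm2⟩
    have hij' : i.1 < j.1 := hij
    obtain ⟨m, hm1, hm2⟩ := key (j.1 - i.1) j (by omega) (le_refl j)
    have hnt : ∃ b' : Fin n, j ≠ b' ∧ s j b' := by
      by_contra hno
      push Not at hno
      apply h2
      rw [enc_sg]
      exact ⟨fun k hk hkj => hno k (ne_of_gt hk) (s.symm hkj), fun k hk hjk => hno k (ne_of_lt hk) hjk⟩
    obtain ⟨b', hb1, hb2⟩ := hnt
    exact s.symm (cv i m j b' hm2 hij.le hm1 hb1 hb2)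

theorem enc_inj (s s' : Setoid (Fin n)) (D E D' E' : ℕ → Prop)
    (h : ∀ i j, s i j ↔ relDE (fun i : Fin n => i.1) D E i j)
    (h' : ∀ i j, s' i j ↔ relDE (fun i : Fin n => i.1) D' E' i j)
    (he : ∀ i, enc s i = enc s' i) : s = s' := by
  have main : ∀ i j, i < j → (s i j ↔ s' i j) := by
    intro i j hij
    rw [enc_rel s D E h i j hij, enc_rel s' D' E' h' i j hij]
    simp only [he]
  apply Setoid.ext
  intro a b
  rcases lt_trichotomy a b with h1 | h1 | h1
  · exact main a b h1
  · subst h1; exact ⟨fun _ => s'.refl a, fun _ => s.refl a⟩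
  · exact ⟨fun h2 => s'.symm ((main b a h1).1 (s.symm h2)),
      fun h2 => s.symm ((main b a h1).2 (s'.symm h2))⟩

end encode

end Pool.Agent.Q151.Phy
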