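import Pool.Agent.Q151.Phy.Up

/-! # Every common partition gives an accepted word -/

namespace Pool.Agent.Q151.Phy

open Lt

variable {n : ℕ}

def has (s : Setoid (Fin n)) (P : ℕ → Prop) (i : Fin n) : Prop := ∃ j, s i j ∧ P j.1

def tB (p : ℕ) : Prop := p % 7 ≤ 4
def t1 (p : ℕ) : Prop := p % 7 = 5
def t2 (p : ℕ) : Prop := p % 7 = 6

def mode (s : Setoid (Fin n)) : Prop := ∃ i, has s t1 i ∧ has s t2 i

def cross1 (s : Setoid (Fin n)) (i : Fin n) : Prop := has s t1 i ∧ (has s tB i ∨ has s t2 i)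
def cross2 (s : Setoid (Fin n)) (i : Fin n) : Prop := has s t2 i ∧ (has s tB i ∨ has s t1 i)

def opn (s : Setoid (Fin n)) (P : ℕ → Prop) (p : ℕ) : Prop :=
  ∃ i j : Fin n, i.1 < p ∧ p ≤ j.1 ∧ s i j ∧ has s P i

def ex (C : Fin n → Prop) (p : ℕ) : Prop := ∃ i : Fin n, i.1 < p ∧ C i

theorem has_congr (s : Setoid (Fin n)) (P : ℕ → Prop) {i j : Fin n} (h : s i j) :
    has s P i ↔ has s P j :=
  ⟨fun ⟨k, h1, h2⟩ => ⟨k, s.trans (s.symm h) h1, h2⟩, fun ⟨k, h1, h2⟩ => ⟨k, s.trans h h1, h2⟩⟩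

theorem cross1_congr (s : Setoid (Fin n)) {i j : Fin n} (h : s i j) :
    cross1 s i ↔ cross1 s j := by
  unfold cross1
  rw [has_congr s t1 h, has_congr s t2 h, has_congr s tB h]

theorem cross2_congr (s : Setoid (Fin n)) {i j : Fin n} (h : s i j) :
    cross2 s i ↔ cross2 s j := by
  unfold cross2
  rw [has_congr s t1 h, has_congr s t2 h, has_congr s tB h]

theorem has_two (s : Setoid (Fin n)) (P P' : ℕ → Prop) (hPP : ∀ p, P p → ¬ P' p) (i : Fin n)
    (h : has s P i) (h' : has s P' i) : ∃ j, j ≠ i ∧ s i j := by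
  obtain ⟨j, h1, h2⟩ := h
  obtain ⟨k, h3, h4⟩ := h'
  by_cases hj : j = i
  · refine ⟨k, ?_, h3⟩
    intro hk
    rw [hk] at h4
    rw [hj] at h2
    exact hPP _ h2 h4
  · exact ⟨j, hj, h1⟩

theorem cross1_nt (s : Setoid (Fin n)) (i : Fin n) (h : cross1 s i) : ∃ j, j ≠ i ∧ s i j := by
  obtain ⟨h1, h2 | h2⟩ := h
  · exact has_two s t1 tB (by intro p a b; unfold t1 tB at *; omega) i h1 h2
  · exact has_two s t1 t2 (by intro p a b; unfold t1 t2 at *; omega) i h1 h2

theorem cross2_nt (s : Setoid (Fin n)) (i : Fin n) (h : cross2 s i) : ∃ j, j ≠ i ∧ s i j := by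
  obtain ⟨h1, h2 | h2⟩ := h
  · exact has_two s t2 tB (by intro p a b; unfold t2 tB at *; omega) i h1 h2
  · exact has_two s t2 t1 (by intro p a b; unfold t1 t2 at *; omega) i h1 h2

section opens

variable (s : Setoid (Fin n)) (D E : ℕ → Prop)
  (h : ∀ i j, s i j ↔ relDE (fun i : Fin n => i.1) D E i j)

theorem opn_sg (P : ℕ → Prop) (p : Fin n) (he : enc s p = sg) :
    opn s P (p.1 + 1) ↔ opn s P p.1 := by
  rw [enc_sg] at he
  constructor
  · rintro ⟨i, j, h1, h2, h3, h4⟩
    refine ⟨i, j, ?_, by omega, h3, h4⟩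
    by_contra hc
    have : i = p := Fin.ext (by omega)
    subst this
    exact he.2 j (by rw [gt_iff_lt, Fin.lt_def]; omega) h3
  · rintro ⟨i, j, h1, h2, h3, h4⟩
    refine ⟨i, j, by omega, ?_, h3, h4⟩
    by_contra hc
    have : j = p := Fin.ext (by omega)
    subst this
    exact he.1 i (by rw [Fin.lt_def]; omega) h3

include h in
theorem open_class (p i j : Fin n) (hp : ∃ b, p ≠ b ∧ s p b) (h1 : i.1 ≤ p.1) (h2 : p.1 ≤ j.1)
    (h3 : s i j) : s p i := by
  obtain ⟨b, hb1, hb2⟩ := hp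
  exact conv_of_relDE s (fun i : Fin n => i.1) Fin.val_injective D E h i j p b h3 h1 h2 hb1 hb2

theorem nt_lt {p : Fin n} (he : ∃ j < p, s j p) : ∃ b, p ≠ b ∧ s p b := by
  obtain ⟨j, h1, h2⟩ := he
  exact ⟨j, ne_of_gt h1, s.symm h2⟩

theorem nt_gt {p : Fin n} (he : ∃ j > p, s p j) : ∃ b, p ≠ b ∧ s p b := by
  obtain ⟨j, h1, h2⟩ := he
  exact ⟨j, ne_of_lt h1, h2⟩

include h in
theorem opn_lf (P : ℕ → Prop) (p : Fin n) (he : enc s p = lf) :
    ¬ opn s P p.1 ∧ (opn s P (p.1 + 1) ↔ has s P p) := by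
  rw [enc_lf] at he
  have hnt := nt_gt s he.2
  refine ⟨?_, ?_, ?_⟩
  · rintro ⟨i, j, h1, h2, h3, h4⟩
    have := open_class s D E h p i j hnt (by omega) h2 h3
    exact he.1 i (by rw [Fin.lt_def]; omega) (s.symm this)
  · rintro ⟨i, j, h1, h2, h3, h4⟩
    by_cases hc : i.1 = p.1
    · rw [← Fin.ext hc]; exact h4
    · have := open_class s D E h p i j hnt (by omega) (by omega) h3
      exact absurd (s.symm this) (he.1 i (by rw [Fin.lt_def]; omega))
  · intro h4
    obtain ⟨j, h1, h2⟩ := he.2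
    have h1' : p.1 < j.1 := h1
    exact ⟨p, j, by omega, by omega, h2, h4⟩

include h in
theorem opn_before (P : ℕ → Prop) (p : Fin n) (he : ∃ j < p, s j p) :
    opn s P p.1 ↔ has s P p := by
  have hnt := nt_lt s he
  constructor
  · rintro ⟨i, j, h1, h2, h3, h4⟩
    have := open_class s D E h p i j hnt (by omega) h2 h3
    exact (has_congr s P this).2 h4
  · intro h4
    obtain ⟨j, h1, h2⟩ := he
    exact ⟨j, p, h1, le_refl _, h2, (has_congr s P h2).2 h4⟩

include h in
theorem opn_after (P : ℕ → Prop) (p : Fin n) (he : ∃ j > p, s p j) :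
    opn s P (p.1 + 1) ↔ has s P p := by
  have hnt := nt_gt s he
  constructor
  · rintro ⟨i, j, h1, h2, h3, h4⟩
    have := open_class s D E h p i j hnt (by omega) (by omega) h3
    exact (has_congr s P this).2 h4
  · intro h4
    obtain ⟨j, h1, h2⟩ := he
    have h1' : p.1 < j.1 := h1
    exact ⟨p, j, by omega, by omega, h2, h4⟩

include h in
theorem opn_rt (P : ℕ → Prop) (p : Fin n) (he : enc s p = rt) : ¬ opn s P (p.1 + 1) := by
  rw [enc_rt] at he
  have hnt := nt_lt s he.1
  rintro ⟨i, j, h1, h2, h3, h4⟩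
  have := open_class s D E h p i j hnt (by omega) (by omega) h3
  exact he.2 j (by rw [gt_iff_lt, Fin.lt_def]; omega) (s.trans this h3)

theorem ex_sg (C : Fin n → Prop) (hnt : ∀ i, C i → ∃ j, j ≠ i ∧ s i j) (p : Fin n)
    (he : enc s p = sg) : ex C (p.1 + 1) ↔ ex C p.1 := by
  rw [enc_sg] at he
  constructor
  · rintro ⟨i, h1, h2⟩
    refine ⟨i, ?_, h2⟩
    by_contra hc
    have : i = p := Fin.ext (by omega)
    subst this
    obtain ⟨j, h3, h4⟩ := hnt i h2
    rcases lt_or_gt_of_ne h3 with h5 | h5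
    · exact he.1 j h5 (s.symm h4)
    · exact he.2 j h5 h4
  · rintro ⟨i, h1, h2⟩
    exact ⟨i, by omega, h2⟩

theorem ex_lt (C : Fin n → Prop) (hc : ∀ i j, s i j → (C i ↔ C j)) (p : Fin n)
    (he : ∃ j < p, s j p) : ex C (p.1 + 1) ↔ ex C p.1 := by
  constructor
  · rintro ⟨i, h1, h2⟩
    by_cases hi : i.1 = p.1
    · obtain ⟨j, h3, h4⟩ := he
      exact ⟨j, h3, (hc j p h4).2 (by rw [← Fin.ext hi]; exact h2)⟩
    · exact ⟨i, by omega, h2⟩
  · rintro ⟨i, h1, h2⟩
    exact ⟨i, by omega, h2⟩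

theorem ex_succ (C : Fin n → Prop) (p : Fin n) : ex C (p.1 + 1) ↔ ex C p.1 ∨ C p := by
  constructor
  · rintro ⟨i, h1, h2⟩
    by_cases hi : i.1 = p.1
    · right; rw [← Fin.ext hi]; exact h2
    · left; exact ⟨i, by omega, h2⟩
  · rintro (⟨i, h1, h2⟩ | h2)
    · exact ⟨i, by omega, h2⟩
    · exact ⟨p, by omega, h2⟩

end opens

section tside

variable {q : ℕ} (s : Setoid (Fin (7 * q))) (D E : ℕ → Prop)
  (h : ∀ i j, s i j ↔ relDE (fun i : Fin (7 * q) => (tauE q i).1) D E i j)

theorem tau_val_inj : Function.Injective (fun i : Fin (7 * q) => (tauE q i).1) :=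
  fun _ _ h => (tauE q).injective (Fin.ext h)

theorem tau_t1 (i : Fin (7 * q)) (hi : t1 i.1) : (tauE q i).1 < q := by
  rw [tauE_val]; unfold tau t1 at *; have := i.2; rw [if_pos hi]; omega

theorem tau_t2 (i : Fin (7 * q)) (hi : t2 i.1) : 6 * q ≤ (tauE q i).1 := by
  rw [tauE_val]; unfold tau t2 at *; rw [if_neg (by omega), if_pos hi]; omega

theorem tau_tB (i : Fin (7 * q)) (hi : tB i.1) :
    q ≤ (tauE q i).1 ∧ (tauE q i).1 < 6 * q := by
  rw [tauE_val]; unfold tau tB at *; have := i.2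
  rw [if_neg (by omega), if_neg (by omega)]; omega

include h in
theorem cross1_unique (i j : Fin (7 * q)) (hi : cross1 s i) (hj : cross1 s j) : s i j := by
  have key : ∀ i, cross1 s i → ∃ a b, s i a ∧ s i b ∧ (tauE q a).1 < q ∧ q ≤ (tauE q b).1 := by
    rintro i ⟨⟨a, h1, h2⟩, ⟨b, h3, h4⟩ | ⟨b, h3, h4⟩⟩
    · exact ⟨a, b, h1, h3, tau_t1 a h2, (tau_tB b h4).1⟩
    · exact ⟨a, b, h1, h3, tau_t1 a h2, by have := tau_t2 b h4; omega⟩
  obtain ⟨a, b, h1, h2, h3, h4⟩ := key i hi
  obtain ⟨a', b', h1', h2', h3', h4'⟩ := key j hj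
  have := cut_of_relDE s _ tau_val_inj D E h q a b a' b' (s.trans (s.symm h1) h2) h3 h4
    (s.trans (s.symm h1') h2') h3' h4'
  exact s.trans (s.trans h1 this) (s.symm h1')

include h in
theorem cross2_unique (i j : Fin (7 * q)) (hi : cross2 s i) (hj : cross2 s j) : s i j := by
  have key : ∀ i, cross2 s i → ∃ a b, s i a ∧ s i b ∧ (tauE q a).1 < 6 * q ∧
      6 * q ≤ (tauE q b).1 := by
    rintro i ⟨⟨b, h3, h4⟩, ⟨a, h1, h2⟩ | ⟨a, h1, h2⟩⟩
    · exact ⟨a, b, h1, h3, (tau_tB a h2).2, tau_t2 b h4⟩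
    · exact ⟨a, b, h1, h3, by have := tau_t1 a h2; omega, tau_t2 b h4⟩
  obtain ⟨a, b, h1, h2, h3, h4⟩ := key i hi
  obtain ⟨a', b', h1', h2', h3', h4'⟩ := key j hj
  have := cut_of_relDE s _ tau_val_inj D E h (6 * q) a b a' b' (s.trans (s.symm h1) h2) h3 h4
    (s.trans (s.symm h1') h2') h3' h4'
  exact s.trans (s.trans h1 this) (s.symm h1')

include h in
theorem mode_block (hm : mode s) (p : Fin (7 * q)) (hnt : ∃ b, p ≠ b ∧ s p b)
    (hp : has s tB p) : has s t1 p ∧ has s t2 p := by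
  obtain ⟨i, ⟨a, h1, h2⟩, ⟨c, h3, h4⟩⟩ := hm
  obtain ⟨b, h5, h6⟩ := hp
  have hb : ∃ b', b ≠ b' ∧ s b b' := by
    by_cases hbp : b = p
    · rw [hbp]; exact hnt
    · exact ⟨p, hbp, s.symm h5⟩
  obtain ⟨b', h7, h8⟩ := hb
  have ha := tau_t1 a h2
  have hc := tau_t2 c h4
  have hb := tau_tB b h6
  have := conv_of_relDE s _ tau_val_inj D E h a c b b' (s.trans (s.symm h1) h3)
    (by omega) (by omega) h7 h8
  have hpi : s p i := s.trans (s.trans h5 this) (s.symm h1)
  exact ⟨(has_congr s t1 hpi).2 ⟨a, h1, h2⟩, (has_congr s t2 hpi).2 ⟨c, h3, h4⟩⟩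

end tside

open Classical in
noncomputable def stt (s : Setoid (Fin n)) (p : ℕ) : State :=
  (decide (ex (cross1 s) p), decide (ex (cross2 s) p), decide (opn s tB p),
    decide (opn s t1 p), decide (opn s t2 p))

def ty (p : ℕ) : ℕ := if p % 7 = 5 then 1 else if p % 7 = 6 then 2 else 0

open Classical in
theorem mt_ty (s : Setoid (Fin n)) (p : Fin n) :
    mt (ty p.1) (decide (has s tB p), decide (has s t1 p), decide (has s t2 p)) = true := by
  rcases (by omega : p.1 % 7 ≤ 4 ∨ p.1 % 7 = 5 ∨ p.1 % 7 = 6) with h3 | h3 | h3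
  · have h : has s tB p := ⟨p, s.refl p, h3⟩
    have e : ty p.1 = 0 := by unfold ty; rw [if_neg (by omega), if_neg (by omega)]
    rw [e]; simp [mt, h]
  · have h : has s t1 p := ⟨p, s.refl p, h3⟩
    have e : ty p.1 = 1 := by unfold ty; rw [if_pos h3]
    rw [e]; simp [mt, h]
  · have h : has s t2 p := ⟨p, s.refl p, h3⟩
    have e : ty p.1 = 2 := by unfold ty; rw [if_neg (by omega), if_pos h3]
    rw [e]; simp [mt, h]

open Classical in
theorem ok_has {q : ℕ} (s : Setoid (Fin (7 * q))) (D' E' : ℕ → Prop)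
    (hT : ∀ i j, s i j ↔ relDE (fun i : Fin (7 * q) => (tauE q i).1) D' E' i j)
    (p : Fin (7 * q)) (hnt : ∃ b, p ≠ b ∧ s p b) : okK (decide (mode s))
    (decide (has s tB p), decide (has s t1 p), decide (has s t2 p)) = true := by
  by_cases hm : mode s
  · have := mode_block s D' E' hT hm p hnt
    unfold okK
    by_cases a1 : has s tB p
    · simp [hm, this a1]
    · simp [hm, a1]
  · unfold okK
    have : ¬ (has s t1 p ∧ has s t2 p) := fun hc => hm ⟨p, hc⟩
    by_cases a2 : has s t1 p <;> by_cases a3 : has s t2 p <;> simp_all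

open Classical in
theorem step_mem {q : ℕ} (s : Setoid (Fin (7 * q))) (D E D' E' : ℕ → Prop)
    (hF : ∀ i j, s i j ↔ relDE (fun i : Fin (7 * q) => i.1) D E i j)
    (hT : ∀ i j, s i j ↔ relDE (fun i : Fin (7 * q) => (tauE q i).1) D' E' i j)
    (p : Fin (7 * q)) :
    (enc s p, stt s (p.1 + 1)) ∈ nxt (decide (mode s)) (ty p.1) (stt s p.1) := by
  have c1 := fun i j (hij : s i j) => cross1_congr s hij
  have c2 := fun i j (hij : s i j) => cross2_congr s hij
  have hmt := mt_ty s p
  cases he : enc s p with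
  | sg =>
    have : stt s (p.1 + 1) = stt s p.1 := by
      unfold stt
      simp only [opn_sg s _ p he, ex_sg s (cross1 s) (cross1_nt s) p he,
        ex_sg s (cross2 s) (cross2_nt s) p he]
    rw [this]
    unfold nxt
    exact List.mem_cons_self
  | lf =>
    have hB := opn_lf s D E hF tB p he
    have h1 := opn_lf s D E hF t1 p he
    have h2 := opn_lf s D E hF t2 p he
    have he' := (enc_lf s p).1 he
    have hnt := nt_gt s he'.2
    have hcl : (stt s p.1).2.2 = (false, false, false) := by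
      simp [stt, hB.1, h1.1, h2.1]
    have hu1 : cross1 s p → ¬ ex (cross1 s) p.1 := by
      rintro h3 ⟨i, h4, h5⟩
      exact he'.1 i h4 (cross1_unique s D' E' hT i p h5 h3)
    have hu2 : cross2 s p → ¬ ex (cross2 s) p.1 := by
      rintro h3 ⟨i, h4, h5⟩
      exact he'.1 i h4 (cross2_unique s D' E' hT i p h5 h3)
    unfold nxt
    rw [if_pos hcl]
    apply List.mem_cons_of_mem
    rw [List.mem_filterMap]
    refine ⟨(decide (has s tB p), decide (has s t1 p), decide (has s t2 p)), ?_, ?_⟩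
    · have hne : has s tB p ∨ has s t1 p ∨ has s t2 p := by
        rcases (by omega : p.1 % 7 ≤ 4 ∨ p.1 % 7 = 5 ∨ p.1 % 7 = 6) with h3 | h3 | h3
        · exact Or.inl ⟨p, s.refl p, h3⟩
        · exact Or.inr (Or.inl ⟨p, s.refl p, h3⟩)
        · exact Or.inr (Or.inr ⟨p, s.refl p, h3⟩)
      unfold kinds
      by_cases a1 : has s tB p <;> by_cases a2 : has s t1 p <;> by_cases a3 : has s t2 p <;>
        simp_all
    · have ecr1 : cr1 (decide (has s tB p), decide (has s t1 p), decide (has s t2 p)) =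
          decide (cross1 s p) := by
        unfold cr1 cross1
        by_cases a1 : has s tB p <;> by_cases a2 : has s t1 p <;> by_cases a3 : has s t2 p <;>
          simp [a1, a2, a3]
      have ecr2 : cr2 (decide (has s tB p), decide (has s t1 p), decide (has s t2 p)) =
          decide (cross2 s p) := by
        unfold cr2 cross2
        by_cases a1 : has s tB p <;> by_cases a2 : has s t1 p <;> by_cases a3 : has s t2 p <;>
          simp [a1, a2, a3]
      have hok := ok_has s D' E' hT p hnt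
      rw [if_pos]
      · congr 2
        unfold stt
        simp only [ecr1, ecr2, Prod.mk.injEq]
        refine ⟨?_, ?_, ?_, ?_, ?_⟩
        · rw [← Bool.decide_or, decide_eq_decide, ex_succ]
        · rw [← Bool.decide_or, decide_eq_decide, ex_succ]
        · rw [decide_eq_decide, hB.2]
        · rw [decide_eq_decide, h1.2]
        · rw [decide_eq_decide, h2.2]
      · rw [hmt, hok, ecr1, ecr2]
        unfold stt
        by_cases a1 : cross1 s p <;> by_cases a2 : cross2 s p <;> simp_all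
  | md =>
    have he' := (enc_md s p).1 he
    have hB := opn_before s D E hF tB p he'.1
    have h1 := opn_before s D E hF t1 p he'.1
    have h2 := opn_before s D E hF t2 p he'.1
    have hB' := opn_after s D E hF tB p he'.2
    have h1' := opn_after s D E hF t1 p he'.2
    have h2' := opn_after s D E hF t2 p he'.2
    have hk : (stt s p.1).2.2 =
        (decide (has s tB p), decide (has s t1 p), decide (has s t2 p)) := by
      simp only [stt, hB, h1, h2]
    have hst : stt s (p.1 + 1) = stt s p.1 := by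
      unfold stt
      simp only [hB, h1, h2, hB', h1', h2', ex_lt s (cross1 s) c1 p he'.1,
        ex_lt s (cross2 s) c2 p he'.1]
    have hne : (stt s p.1).2.2 ≠ (false, false, false) := by
      intro hc
      rw [hk] at hc
      rw [hc] at hmt
      unfold mt at hmt
      split_ifs at hmt <;> simp at hmt
    have hok := ok_has s D' E' hT p (nt_lt s he'.1)
    unfold nxt
    rw [if_neg hne, if_pos (by rw [hk, hmt, hok]; rfl), hst]
    simp
  | rt =>
    have he' := (enc_rt s p).1 he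
    have hB := opn_before s D E hF tB p he'.1
    have h1 := opn_before s D E hF t1 p he'.1
    have h2 := opn_before s D E hF t2 p he'.1
    have hB' := opn_rt s D E hF tB p he
    have h1' := opn_rt s D E hF t1 p he
    have h2' := opn_rt s D E hF t2 p he
    have hk : (stt s p.1).2.2 =
        (decide (has s tB p), decide (has s t1 p), decide (has s t2 p)) := by
      simp only [stt, hB, h1, h2]
    have hst : stt s (p.1 + 1) = ((stt s p.1).1, (stt s p.1).2.1, false, false, false) := by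
      unfold stt
      simp only [hB', h1', h2', ex_lt s (cross1 s) c1 p he'.1,
        ex_lt s (cross2 s) c2 p he'.1, decide_false]
    have hne : (stt s p.1).2.2 ≠ (false, false, false) := by
      intro hc
      rw [hk] at hc
      rw [hc] at hmt
      unfold mt at hmt
      split_ifs at hmt <;> simp at hmt
    have hok := ok_has s D' E' hT p (nt_lt s he'.1)
    unfold nxt
    rw [if_neg hne, if_pos (by rw [hk, hmt, hok]; rfl), hst]
    simp

/-- the letters as a function on `ℕ` -/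
noncomputable def ltr (s : Setoid (Fin n)) (p : ℕ) : Lt := if h : p < n then enc s ⟨p, h⟩ else sg

open Classical in
theorem word_mem {q : ℕ} (s : Setoid (Fin (7 * q))) (D E D' E' : ℕ → Prop)
    (hF : ∀ i j, s i j ↔ relDE (fun i : Fin (7 * q) => i.1) D E i j)
    (hT : ∀ i j, s i j ↔ relDE (fun i : Fin (7 * q) => (tauE q i).1) D' E' i j)
    (r : ℕ) (hr : r ≤ 7 * q) :
    (List.range' (7 * q - r) r).map (ltr s) ∈ accN (decide (mode s)) r (stt s (7 * q - r)) := by
  induction r with
  | zero =>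
    have : (stt s (7 * q - 0)).2.2 = (false, false, false) := by
      have hno : ∀ P, ¬ opn s P (7 * q - 0) := by
        rintro P ⟨i, j, h1, h2, -⟩
        have := j.2
        omega
      unfold stt
      simp only [hno, decide_false]
    unfold accN
    rw [if_pos this]
    simp
  | succ r ih =>
    have hp : 7 * q - (r + 1) < 7 * q := by omega
    have h1 := step_mem s D E D' E' hF hT ⟨7 * q - (r + 1), hp⟩
    have h2 : 7 * q - (r + 1) + 1 = 7 * q - r := by omega
    have h3 : ty (7 * q - (r + 1)) = tyr (r + 1) := by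
      unfold ty tyr
      split_ifs <;> omega
    simp only [h2, h3] at h1
    have e0 : accN (decide (mode s)) (r + 1) (stt s (7 * q - (r + 1))) =
      (nxt (decide (mode s)) (tyr (r + 1)) (stt s (7 * q - (r + 1)))).flatMap
        (fun x => (accN (decide (mode s)) r x.2).map (x.1 :: ·)) := rfl
    rw [e0, List.mem_flatMap]
    refine ⟨_, h1, ?_⟩
    rw [List.range'_succ, List.map_cons, h2, List.mem_map]
    refine ⟨_, ih (by omega), ?_⟩
    have : ltr s (7 * q - (r + 1)) = enc s ⟨7 * q - (r + 1), hp⟩ := by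
      unfold ltr; rw [dif_pos hp]
    rw [this]

end Pool.Agent.Q151.Phy
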